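import Mathlib

/-!
# The three-torus as a smooth manifold, and descent of maps
-/

open scoped Manifold ContDiff Topology
open Set Filter

namespace Pool.Agent.H49.Katok

/-- The space in which the charts take values. -/
abbrev E3 : Type := EuclideanSpace ℝ (Fin 3)

/-- Coordinates used for computations. -/
abbrev V : Type := ℝ × ℝ × ℝ

/-- The three-torus. -/
abbrev T3 : Type := UnitAddCircle × UnitAddCircle × UnitAddCircle

/-- Coordinates. -/
noncomputable def e3 : E3 ≃L[ℝ] V :=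
  LinearEquiv.toContinuousLinearEquiv
    { toFun := fun x => (x 0, x 1, x 2)
      invFun := fun v => !₂[v.1, v.2.1, v.2.2]
      map_add' := fun x y => by simp
      map_smul' := fun c x => by simp
      left_inv := fun x => by
        ext i
        fin_cases i <;> simp
      right_inv := fun v => by simp }

/-- The universal covering. -/
def piT : V → T3 := Prod.map (fun x : ℝ => (x : UnitAddCircle))
  (Prod.map (fun x : ℝ => (x : UnitAddCircle)) (fun x : ℝ => (x : UnitAddCircle)))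

lemma piT_apply (v : V) :
    piT v = ((v.1 : UnitAddCircle), (v.2.1 : UnitAddCircle), (v.2.2 : UnitAddCircle)) := rfl

lemma isOpenQuotientMap_coe : IsOpenQuotientMap (fun x : ℝ => (x : UnitAddCircle)) :=
  QuotientAddGroup.isOpenQuotientMap_mk

lemma isOpenQuotientMap_piT : IsOpenQuotientMap piT :=
  isOpenQuotientMap_coe.prodMap (isOpenQuotientMap_coe.prodMap isOpenQuotientMap_coe)

lemma continuous_piT : Continuous piT := isOpenQuotientMap_piT.continuous

lemma surjective_piT : Function.Surjective piT := isOpenQuotientMap_piT.surjective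

/-- The inclusion of the lattice. -/
def latt (m : ℤ × ℤ × ℤ) : V := ((m.1 : ℝ), (m.2.1 : ℝ), (m.2.2 : ℝ))

lemma coe_eq_coe_iff {a b : ℝ} :
    (a : UnitAddCircle) = (b : UnitAddCircle) ↔ ∃ m : ℤ, b = a + m := by
  rw [eq_comm, ← sub_eq_zero, ← AddCircle.coe_sub, AddCircle.coe_eq_zero_iff]
  constructor
  · rintro ⟨n, hn⟩
    refine ⟨n, ?_⟩
    simp at hn
    linarith
  · rintro ⟨m, hm⟩
    refine ⟨m, ?_⟩
    rw [hm]
    simp

lemma piT_eq_iff {v w : V} : piT v = piT w ↔ ∃ m : ℤ × ℤ × ℤ, w = v + latt m := by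
  rw [piT_apply, piT_apply, Prod.mk.injEq, Prod.mk.injEq, coe_eq_coe_iff, coe_eq_coe_iff,
    coe_eq_coe_iff]
  constructor
  · rintro ⟨⟨a, ha⟩, ⟨b, hb⟩, ⟨c, hc⟩⟩
    exact ⟨(a, b, c), Prod.ext ha (Prod.ext hb hc)⟩
  · rintro ⟨m, rfl⟩
    exact ⟨⟨m.1, rfl⟩, ⟨m.2.1, rfl⟩, ⟨m.2.2, rfl⟩⟩

lemma int_eq_zero_of_abs_lt {m : ℤ} {a b c : ℝ} (ha : a ∈ Ioo (c - 1/2) (c + 1/2))
    (hb : b ∈ Ioo (c - 1/2) (c + 1/2)) (h : b = a + m) : m = 0 := by
  have h4 : |(m : ℝ)| < 1 := by
    rw [abs_lt]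
    constructor
    · linarith [ha.2, hb.1]
    · linarith [ha.1, hb.2]
  have h6 : |m| < 1 := by exact_mod_cast h4
  exact Int.abs_lt_one_iff.mp h6

lemma piT_locInj (x : V) : ∃ U : Set V, IsOpen U ∧ x ∈ U ∧ InjOn piT U := by
  refine ⟨Ioo (x.1 - 1/2) (x.1 + 1/2) ×ˢ (Ioo (x.2.1 - 1/2) (x.2.1 + 1/2) ×ˢ
    Ioo (x.2.2 - 1/2) (x.2.2 + 1/2)), isOpen_Ioo.prod (isOpen_Ioo.prod isOpen_Ioo), ?_, ?_⟩
  · refine ⟨?_, ?_, ?_⟩ <;> constructor <;> linarith
  · intro y hy z hz h
    obtain ⟨m, rfl⟩ := piT_eq_iff.mp h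
    have h1 := int_eq_zero_of_abs_lt hy.1 hz.1 rfl
    have h2 := int_eq_zero_of_abs_lt hy.2.1 hz.2.1 rfl
    have h3 := int_eq_zero_of_abs_lt hy.2.2 hz.2.2 rfl
    simp [latt, h1, h2, h3]

lemma isLocalHomeomorph_of_open_of_locInj {X Y : Type*} [TopologicalSpace X] [TopologicalSpace Y]
    {f : X → Y} (hc : Continuous f) (ho : IsOpenMap f)
    (hi : ∀ x, ∃ U : Set X, IsOpen U ∧ x ∈ U ∧ InjOn f U) : IsLocalHomeomorph f := by
  rw [isLocalHomeomorph_iff_isOpenEmbedding_restrict]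
  intro x
  obtain ⟨U, hU, hx, hinj⟩ := hi x
  refine ⟨U, hU.mem_nhds hx, ?_⟩
  refine Topology.IsOpenEmbedding.of_continuous_injective_isOpenMap ?_ ?_ ?_
  · exact hc.comp continuous_subtype_val
  · exact injOn_iff_injective.mp hinj
  · exact ho.comp (hU.isOpenMap_subtype_val)

lemma isLocalHomeomorph_piT : IsLocalHomeomorph piT :=
  isLocalHomeomorph_of_open_of_locInj continuous_piT isOpenQuotientMap_piT.isOpenMap piT_locInj

/-- The covering by the model space. -/
noncomputable def pE (x : E3) : T3 := piT (e3 x)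

lemma loc_pE : IsLocalHomeomorph pE :=
  isLocalHomeomorph_piT.comp e3.toHomeomorph.isLocalHomeomorph

lemma surj_pE : Function.Surjective pE := fun y => by
  obtain ⟨v, rfl⟩ := surjective_piT y
  exact ⟨e3.symm v, by simp [pE]⟩

lemma pE_eq {x x' : E3} (h : pE x = pE x') :
    ∃ c : E3, x' = x + c ∧ ∀ z, pE (z + c) = pE z := by
  obtain ⟨m, hm⟩ := piT_eq_iff.mp h
  refine ⟨e3.symm (latt m), ?_, fun z => ?_⟩
  · apply e3.injective
    rw [map_add, e3.apply_symm_apply, hm]
  · unfold pE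
    rw [eq_comm, piT_eq_iff]
    exact ⟨m, by rw [map_add, e3.apply_symm_apply]⟩

/-- The local inverses of the covering. -/
noncomputable def inv (x : E3) : OpenPartialHomeomorph T3 E3 := loc_pE.localInverseAt x

@[simp] lemma inv_symm (x : E3) : ((inv x).symm : E3 → T3) = pE := loc_pE.localInverseAt_symm x

lemma mem_inv_source (x : E3) : pE x ∈ (inv x).source := loc_pE.apply_self_mem_localInverseAt_source

lemma mem_inv_target (x : E3) : x ∈ (inv x).target := loc_pE.self_mem_localInverseAt_target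

lemma pE_inv {x : E3} {y : T3} (hy : y ∈ (inv x).source) : pE (inv x y) = y :=
  loc_pE.apply_localInverseAt_of_mem hy

lemma inv_pE_of_mem {x z : E3} (hz : z ∈ (inv x).target) : inv x (pE z) = z := by
  have := (inv x).right_inv hz
  rwa [inv_symm] at this

/-- A chosen preimage. -/
noncomputable def pre (y : T3) : E3 := (surj_pE y).choose

lemma pE_pre (y : T3) : pE (pre y) = y := (surj_pE y).choose_spec

noncomputable instance chartedT3 : ChartedSpace E3 T3 where
  atlas := {e | ∃ x, e = inv x}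
  chartAt y := inv (pre y)
  mem_chart_source y := by
    have := mem_inv_source (pre y)
    rwa [pE_pre y] at this
  chart_mem_atlas y := ⟨_, rfl⟩

lemma contDiffAt_inv_comp_pE {x' z : E3} (hz : pE z ∈ (inv x').source) :
    ContDiffAt ℝ ∞ (fun w => inv x' (pE w)) z := by
  obtain ⟨c, hc, h3⟩ := pE_eq (x := z) (x' := inv x' (pE z)) (pE_inv hz).symm
  have h1 : ContDiffAt ℝ ∞ (fun w : E3 => w + c) z := by fun_prop
  refine h1.congr_of_eventuallyEq ?_
  have h2 : ∀ᶠ w in 𝓝 z, w + c ∈ (inv x').target := by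
    refine h1.continuousAt.eventually ((inv x').open_target.mem_nhds ?_)
    change z + c ∈ (inv x').target
    rw [← hc]
    exact (inv x').map_source hz
  filter_upwards [h2] with w hw
  rw [← h3 w, inv_pE_of_mem hw]

instance manifoldT3 : IsManifold 𝓘(ℝ, E3) ∞ T3 := by
  apply isManifold_of_contDiffOn
  rintro e e' ⟨x, rfl⟩ ⟨x', rfl⟩
  intro z hz
  simp only [mfld_simps, inv_symm] at hz ⊢
  exact (contDiffAt_inv_comp_pE hz.2).contDiffWithinAt

lemma inv_mem_maximalAtlas (x : E3) : inv x ∈ IsManifold.maximalAtlas 𝓘(ℝ, E3) ∞ T3 :=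
  IsManifold.subset_maximalAtlas ⟨x, rfl⟩

lemma contMDiffAt_inv {x : E3} {y : T3} (hy : y ∈ (inv x).source) :
    ContMDiffAt 𝓘(ℝ, E3) 𝓘(ℝ, E3) ∞ (inv x) y :=
  (contMDiffOn_of_mem_maximalAtlas (inv_mem_maximalAtlas x)).contMDiffAt
    ((inv x).open_source.mem_nhds hy)

lemma contMDiff_pE : ContMDiff 𝓘(ℝ, E3) 𝓘(ℝ, E3) ∞ pE := by
  intro x
  have h := (contMDiffOn_symm_of_mem_maximalAtlas (inv_mem_maximalAtlas x)).contMDiffAt
    ((inv x).open_target.mem_nhds (mem_inv_target x))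
  rwa [inv_symm] at h

/-- A self-map which lifts to a smooth map is smooth. -/
lemma contMDiff_of_lift {F : T3 → T3} {Φ : V → V} (hF : ∀ v, F (piT v) = piT (Φ v))
    (h : ContDiff ℝ ∞ Φ) : ContMDiff 𝓘(ℝ, E3) 𝓘(ℝ, E3) ∞ F := by
  intro y
  obtain ⟨x, rfl⟩ := surj_pE y
  have hΦ : ContDiff ℝ ∞ (fun z => e3.symm (Φ (e3 z))) :=
    e3.symm.contDiff.comp (h.comp e3.contDiff)
  have h1 : ContMDiffAt 𝓘(ℝ, E3) 𝓘(ℝ, E3) ∞ (pE ∘ (fun z => e3.symm (Φ (e3 z))) ∘ inv x)
      (pE x) := by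
    refine ContMDiffAt.comp _ (contMDiff_pE _) ?_
    refine ContMDiffAt.comp _ (hΦ.contMDiff _) ?_
    exact contMDiffAt_inv (mem_inv_source x)
  refine h1.congr_of_eventuallyEq ?_
  filter_upwards [(inv x).open_source.mem_nhds (mem_inv_source x)] with z hz
  have h2 : piT (e3 (inv x z)) = z := pE_inv hz
  have h3 := hF (e3 (inv x z))
  rw [h2] at h3
  simp only [Function.comp_apply, pE, e3.apply_symm_apply]
  exact h3

/-- Lifts of diffeomorphisms of the torus homotopic to the identity. -/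
structure LiftEquiv where
  /-- the bijection -/
  Φ : V ≃ V
  equi : ∀ v m, Φ (v + latt m) = Φ v + latt m
  smooth : ContDiff ℝ ∞ Φ
  smooth_symm : ContDiff ℝ ∞ Φ.symm

namespace LiftEquiv

variable (L L' : LiftEquiv)

lemma equi_symm (v : V) (m : ℤ × ℤ × ℤ) : L.Φ.symm (v + latt m) = L.Φ.symm v + latt m := by
  rw [Equiv.symm_apply_eq, L.equi, Equiv.apply_symm_apply]

/-- The inverse. -/
def symm : LiftEquiv where
  Φ := L.Φ.symm
  equi := L.equi_symm
  smooth := L.smooth_symm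
  smooth_symm := L.smooth

/-- The composition `L` after `L'`. -/
def comp : LiftEquiv where
  Φ := L'.Φ.trans L.Φ
  equi v m := by simp [L.equi, L'.equi]
  smooth := L.smooth.comp L'.smooth
  smooth_symm := L'.smooth_symm.comp L.smooth_symm

/-- The induced map of the torus. -/
noncomputable def desc (y : T3) : T3 := piT (L.Φ (surjective_piT y).choose)

lemma desc_piT (v : V) : L.desc (piT v) = piT (L.Φ v) := by
  unfold desc
  have h := (surjective_piT (piT v)).choose_spec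
  rw [eq_comm, piT_eq_iff] at h
  obtain ⟨m, hm⟩ := h
  rw [hm, L.equi, eq_comm, piT_eq_iff]
  exact ⟨m, rfl⟩

lemma desc_symm_desc (y : T3) : L.symm.desc (L.desc y) = y := by
  obtain ⟨v, rfl⟩ := surjective_piT y
  rw [desc_piT, desc_piT]
  simp [symm]

lemma desc_desc_symm (y : T3) : L.desc (L.symm.desc y) = y := by
  obtain ⟨v, rfl⟩ := surjective_piT y
  rw [desc_piT, desc_piT]
  simp [symm]

/-- The induced diffeomorphism of the torus. -/
noncomputable def diffeo : Diffeomorph 𝓘(ℝ, E3) 𝓘(ℝ, E3) T3 T3 ∞ where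
  toFun := L.desc
  invFun := L.symm.desc
  left_inv := L.desc_symm_desc
  right_inv := L.desc_desc_symm
  contMDiff_toFun := contMDiff_of_lift L.desc_piT L.smooth
  contMDiff_invFun := contMDiff_of_lift L.symm.desc_piT L.symm.smooth

end LiftEquiv

end Pool.Agent.H49.Katok
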