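import Pool.Agent.H49.Katok.Words
import Pool.Agent.H49.Katok.Mfd

/-!
# The coding map of the horseshoe
-/

open Set Filter Topology

namespace Pool.Agent.H49.Katok

/-- A bit as a real number. -/
def bit (b : Bool) : ℝ := if b then 1 else 0

lemma bit_nonneg (b : Bool) : 0 ≤ bit b := by unfold bit; split_ifs <;> norm_num
lemma bit_le_one (b : Bool) : bit b ≤ 1 := by unfold bit; split_ifs <;> norm_num

/-- The weights. -/
noncomputable def wt (j : ℤ) : ℝ := (1 / 5) ^ j.natAbs

lemma wt_pos (j : ℤ) : 0 < wt j := by unfold wt; positivity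

@[simp] lemma wt_zero : wt 0 = 1 := by simp [wt]

lemma hasSum_wt : HasSum wt (3 / 2) := by
  have h0 := hasSum_geometric_of_lt_one (r := (1 / 5 : ℝ)) (by norm_num) (by norm_num)
  have h1 : HasSum (fun n : ℕ => wt n) (5 / 4) := by
    have e1 : (fun n : ℕ => wt n) = fun n : ℕ => (1 / 5 : ℝ) ^ n := by
      funext n
      simp [wt]
    have e2 : (5 / 4 : ℝ) = (1 - 1 / 5)⁻¹ := by norm_num
    rw [e1, e2]
    exact h0
  have h2 : HasSum (fun n : ℕ => wt (-(n + 1 : ℤ))) (1 / 4) := by
    have e1 : (fun n : ℕ => wt (-(n + 1 : ℤ))) = fun n : ℕ => (1 / 5 : ℝ) * (1 / 5 : ℝ) ^ n := by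
      funext n
      unfold wt
      have : (-(n + 1 : ℤ)).natAbs = n + 1 := by omega
      rw [this, pow_succ]
      ring
    have e2 : (1 / 4 : ℝ) = 1 / 5 * (1 - 1 / 5)⁻¹ := by norm_num
    rw [e1, e2]
    exact h0.mul_left _
  have h3 := HasSum.of_nat_of_neg_add_one h1 h2
  have e3 : (3 / 2 : ℝ) = 5 / 4 + 1 / 4 := by norm_num
  rw [e3]
  exact h3

lemma summable_shifted (w : Om) (n : ℤ) : Summable fun j : ℤ => wt (j - n) * bit (w j) := by
  have h1 : Summable fun j : ℤ => wt (j - n) :=
    (Equiv.subRight n).summable_iff.mpr hasSum_wt.summable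
  refine Summable.of_nonneg_of_le (fun j => mul_nonneg (wt_pos _).le (bit_nonneg _))
    (fun j => ?_) h1
  exact mul_le_of_le_one_right (wt_pos _).le (bit_le_one _)

/-- The sequence of positions of the orbit. -/
noncomputable def X (w : Om) (n : ℤ) : ℝ := (1 / 6) * ∑' j : ℤ, wt (j - n) * bit (w j)

lemma X_shift (w : Om) (n : ℤ) : X (shift w) n = X w (n + 1) := by
  unfold X
  congr 1
  rw [← (Equiv.subRight (1 : ℤ)).tsum_eq]
  refine tsum_congr fun j => ?_
  simp only [Equiv.subRight_apply, shift, sub_add_cancel]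
  congr 2
  ring

lemma X_shift_iterate (w : Om) (i : ℕ) (n : ℤ) : X (shift^[i] w) n = X w (n + i) := by
  induction i generalizing w with
  | zero => simp
  | succ i ih =>
    rw [Function.iterate_succ_apply, ih, X_shift]
    congr 1
    push_cast
    ring

lemma wt_rec (j : ℤ) : wt (j - 1) + wt (j + 1) = 26 / 5 * wt j - if j = 0 then 24 / 5 else 0 := by
  unfold wt
  rcases lt_trichotomy j 0 with h | rfl | h
  · obtain ⟨n, rfl⟩ : ∃ n : ℕ, j = -(n + 1 : ℤ) := ⟨(-j - 1).toNat, by omega⟩
    rw [if_neg (by omega)]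
    have h1 : (-(n + 1 : ℤ) - 1).natAbs = n + 2 := by omega
    have h2 : (-(n + 1 : ℤ) + 1).natAbs = n := by omega
    have h3 : (-(n + 1 : ℤ)).natAbs = n + 1 := by omega
    rw [h1, h2, h3]
    ring
  · norm_num
  · obtain ⟨n, rfl⟩ : ∃ n : ℕ, j = (n + 1 : ℤ) := ⟨(j - 1).toNat, by omega⟩
    rw [if_neg (by omega)]
    have h1 : ((n + 1 : ℤ) - 1).natAbs = n := by omega
    have h2 : ((n + 1 : ℤ) + 1).natAbs = n + 2 := by omega
    have h3 : ((n + 1 : ℤ)).natAbs = n + 1 := by omega
    rw [h1, h2, h3]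
    ring

lemma X_rec (w : Om) (n : ℤ) : X w (n + 1) + X w (n - 1) = 26 / 5 * X w n - 4 / 5 * bit (w n) := by
  have h1 := (summable_shifted w (n + 1)).hasSum.add (summable_shifted w (n - 1)).hasSum
  have h2 : HasSum (fun j : ℤ => 26 / 5 * (wt (j - n) * bit (w j))
      - (if j = n then 24 / 5 * bit (w n) else 0))
      (26 / 5 * (∑' j : ℤ, wt (j - n) * bit (w j)) - 24 / 5 * bit (w n)) :=
    ((summable_shifted w n).hasSum.mul_left _).sub (hasSum_ite_eq n _)
  have h3 : (fun j : ℤ => wt (j - (n + 1)) * bit (w j) + wt (j - (n - 1)) * bit (w j))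
      = fun j : ℤ => 26 / 5 * (wt (j - n) * bit (w j))
      - (if j = n then 24 / 5 * bit (w n) else 0) := by
    funext j
    have h4 := wt_rec (j - n)
    have h5 : j - (n + 1) = j - n - 1 := by ring
    have h6 : j - (n - 1) = j - n + 1 := by ring
    rw [h5, h6, ← add_mul, h4]
    by_cases h : j = n
    · subst h
      simp
      ring
    · rw [if_neg h, if_neg (by omega)]
      ring
  rw [h3] at h1
  have h4 := h1.unique h2
  unfold X
  linarith

lemma X_nonneg (w : Om) (n : ℤ) : 0 ≤ X w n :=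
  mul_nonneg (by norm_num) (tsum_nonneg fun j => mul_nonneg (wt_pos _).le (bit_nonneg _))

lemma hasSum_wt_shifted (n : ℤ) : HasSum (fun j : ℤ => wt (j - n)) (3 / 2) :=
  (Equiv.subRight n).hasSum_iff.mpr hasSum_wt

lemma X_le (w : Om) (n : ℤ) : X w n ≤ 1 / 4 := by
  have h : ∑' j : ℤ, wt (j - n) * bit (w j) ≤ 3 / 2 :=
    hasSum_le (fun j => mul_le_of_le_one_right (wt_pos _).le (bit_le_one _))
      (summable_shifted w n).hasSum (hasSum_wt_shifted n)
  unfold X
  linarith

lemma X_of_false {w : Om} {n : ℤ} (h : w n = false) : X w n ≤ 1 / 12 := by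
  have h1 : HasSum (fun j : ℤ => wt (j - n) - if j = n then 1 else 0) (3 / 2 - 1) :=
    (hasSum_wt_shifted n).sub (hasSum_ite_eq n _)
  have h2 : ∑' j : ℤ, wt (j - n) * bit (w j) ≤ 3 / 2 - 1 := by
    refine hasSum_le (fun j => ?_) (summable_shifted w n).hasSum h1
    by_cases hj : j = n
    · subst hj
      simp [h, bit]
    · rw [if_neg hj, sub_zero]
      exact mul_le_of_le_one_right (wt_pos _).le (bit_le_one _)
  unfold X
  linarith

lemma X_of_true {w : Om} {n : ℤ} (h : w n = true) : 1 / 6 ≤ X w n := by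
  have h2 : (1 : ℝ) ≤ ∑' j : ℤ, wt (j - n) * bit (w j) := by
    have := (summable_shifted w n).le_tsum n
      (fun j _ => mul_nonneg (wt_pos _).le (bit_nonneg _))
    simpa [h, bit] using this
  unfold X
  linarith

lemma X_bit (w : Om) (n : ℤ) :
    (w n = false ∧ X w n ∈ Icc (0 : ℝ) (1 / 12)) ∨ (w n = true ∧ X w n ∈ Icc (1 / 6 : ℝ) (1 / 4)) := by
  rcases h : w n with _ | _
  · exact Or.inl ⟨rfl, X_nonneg w n, X_of_false h⟩
  · exact Or.inr ⟨rfl, X_of_true h, X_le w n⟩

lemma bit_eq_of_X_eq {w w' : Om} {n : ℤ} (h : X w n = X w' n) : w n = w' n := by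
  rcases X_bit w n with ⟨h1, h2⟩ | ⟨h1, h2⟩ <;> rcases X_bit w' n with ⟨h3, h4⟩ | ⟨h3, h4⟩
  · rw [h1, h3]
  · exfalso; have := h2.2; have := h4.1; linarith
  · exfalso; have := h2.1; have := h4.2; linarith
  · rw [h1, h3]

lemma X_injective {w w' : Om} (h0 : X w 0 = X w' 0) (h1 : X w 1 = X w' 1) : w = w' := by
  have key : ∀ n : ℤ, X w n = X w' n ∧ X w (n + 1) = X w' (n + 1) := by
    intro n
    induction n using Int.induction_on with
    | zero => exact ⟨h0, by simpa using h1⟩
    | succ n ih =>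
      refine ⟨ih.2, ?_⟩
      have h2 := X_rec w (n + 1)
      have h3 := X_rec w' (n + 1)
      rw [add_sub_cancel_right] at h2 h3
      rw [← bit_eq_of_X_eq ih.2, ← ih.2, ← ih.1] at h3
      linarith
    | pred n ih =>
      have h2 := X_rec w (-n)
      have h3 := X_rec w' (-n)
      rw [← bit_eq_of_X_eq ih.1, ← ih.2, ← ih.1] at h3
      refine ⟨by linarith, ?_⟩
      rw [sub_add_cancel]
      exact ih.1
  funext n
  exact bit_eq_of_X_eq (key n).1

lemma continuous_X (n : ℤ) : Continuous fun w => X w n := by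
  unfold X
  refine continuous_const.mul ?_
  refine continuous_tsum (u := fun j : ℤ => wt (j - n)) (fun j => ?_)
    (hasSum_wt_shifted n).summable (fun j w => ?_)
  · refine continuous_const.mul ?_
    exact (continuous_of_discreteTopology (f := bit)).comp (continuous_apply j)
  · rw [Real.norm_eq_abs, abs_of_nonneg (mul_nonneg (wt_pos _).le (bit_nonneg _))]
    exact mul_le_of_le_one_right (wt_pos _).le (bit_le_one _)

/-- The coding map with values in the plane. -/
noncomputable def pl (w : Om) : ℝ × ℝ := (X w 0, X w 1 - X w 0)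

lemma continuous_pl : Continuous pl :=
  (continuous_X 0).prodMk ((continuous_X 1).sub (continuous_X 0))

lemma pl_mem (w : Om) : pl w ∈ Icc (0 : ℝ) (1 / 4) ×ˢ Icc (-1 / 4 : ℝ) (1 / 4) := by
  have h1 := X_nonneg w 0
  have h2 := X_nonneg w 1
  have h3 := X_le w 0
  have h4 := X_le w 1
  refine ⟨⟨h1, h3⟩, ?_, ?_⟩ <;> simp only [pl] <;> linarith

lemma pl_injective : Function.Injective pl := by
  intro w w' h
  have h1 : X w 0 = X w' 0 := congrArg Prod.fst h
  have h2 : X w 1 - X w 0 = X w' 1 - X w' 0 := congrArg Prod.snd h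
  exact X_injective h1 (by linarith)

/-- The coding map with values in the torus. -/
noncomputable def code (w : Om) : T3 := piT ((pl w).1, (pl w).2, 0)

lemma continuous_code : Continuous code :=
  continuous_piT.comp ((continuous_fst.comp continuous_pl).prodMk
    ((continuous_snd.comp continuous_pl).prodMk continuous_const))

lemma code_injective : Function.Injective code := by
  intro w w' h
  obtain ⟨m, hm⟩ := piT_eq_iff.mp h
  apply pl_injective
  have h1 := pl_mem w
  have h2 := pl_mem w'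
  have e1 : (pl w').1 = (pl w).1 + m.1 := congrArg Prod.fst hm
  have e2 : (pl w').2 = (pl w).2 + m.2.1 := congrArg (fun v : V => v.2.1) hm
  have z1 : m.1 = 0 := by
    refine int_eq_zero_of_abs_lt (c := 0) ?_ ?_ e1
    · constructor <;> linarith [h1.1.1, h1.1.2]
    · constructor <;> linarith [h2.1.1, h2.1.2]
  have z2 : m.2.1 = 0 := by
    refine int_eq_zero_of_abs_lt (c := 0) ?_ ?_ e2
    · constructor <;> linarith [h1.2.1, h1.2.2]
    · constructor <;> linarith [h2.2.1, h2.2.2]
  rw [z1] at e1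
  rw [z2] at e2
  exact Prod.ext (by simpa using e1.symm) (by simpa using e2.symm)

end Pool.Agent.H49.Katok
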