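import Mathlib

/-!
# Smooth closed manifolds, their diffeomorphisms, and entropies
-/

open MeasureTheory Filter Set
open scoped Manifold ContDiff

namespace Pool.Agent.H49.Katok

/-- Shannon entropy of the partition of `X` into the sets `{x | ξ x = a}`, where `a` runs over a
finite type: `∑ - μ(A) log μ(A)`. -/
noncomputable def partEntropy {X α : Type} [MeasurableSpace X] [Fintype α] (μ : Measure X)
    (ξ : X → α) : ℝ :=
  ∑ a : α, Real.negMulLog (μ.real (ξ ⁻¹' {a}))

/-- The itinerary of length `n` of `x` with respect to the partition `ξ`; as a map it describes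
the common refinement of the partitions `ξ, ξ ∘ f, …, ξ ∘ f^(n-1)`. -/
def itin {X α : Type} (f : X → X) (ξ : X → α) (n : ℕ) (x : X) : Fin n → α :=
  fun i => ξ (f^[i] x)

/-- Kolmogorov-Sinai entropy `h_μ(f)`: the supremum over all finite measurable partitions `ξ` of
`lim (1/n) H_μ(ξ ∨ f⁻¹ξ ∨ … ∨ f^{-(n-1)}ξ)`. -/
noncomputable def ksEntropy {X : Type} [MeasurableSpace X] (f : X → X) (μ : Measure X) : EReal :=
  ⨆ (k : ℕ) (ξ : X → Fin k) (_ : Measurable ξ),
    limsup (fun n : ℕ => ((partEntropy μ (itin f ξ n) / n : ℝ) : EReal)) atTop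

/-- A compact connected Hausdorff manifold `M` of class `C^∞` and dimension `n`, without boundary.
It is given with the unique uniform structure compatible with its topology and with its Borel
`σ`-algebra. -/
structure ClosedManifold (n : ℕ) where
  /-- the underlying set -/
  M : Type
  [uniform : UniformSpace M]
  [compact : CompactSpace M]
  [hausdorff : T2Space M]
  [connected : ConnectedSpace M]
  [measurable : MeasurableSpace M]
  [borel : BorelSpace M]
  [charted : ChartedSpace (EuclideanSpace ℝ (Fin n)) M]
  [smooth : IsManifold (𝓡 n) ∞ M]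

attribute [instance] ClosedManifold.uniform ClosedManifold.compact ClosedManifold.hausdorff
  ClosedManifold.connected ClosedManifold.measurable ClosedManifold.borel ClosedManifold.charted
  ClosedManifold.smooth

/-- `f` is a `C^∞` diffeomorphism of the manifold `M`, which is modelled on the normed space `E`. -/
def IsDiffeo (E : Type) {M : Type} [NormedAddCommGroup E] [NormedSpace ℝ E] [TopologicalSpace M]
    [ChartedSpace E M] (f : M → M) : Prop :=
  ∃ φ : M ≃ₘ^∞⟮𝓘(ℝ, E), 𝓘(ℝ, E)⟯ M, ∀ x, φ x = f x

/-- `f` is a `C^∞` diffeomorphism of `X`. -/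
def IsSmoothDiffeo {n : ℕ} (X : ClosedManifold n) (f : X.M → X.M) : Prop :=
  IsDiffeo (EuclideanSpace ℝ (Fin n)) f

/-- The topological entropy `h_top(f)`. -/
noncomputable def topEntropy {n : ℕ} (X : ClosedManifold n) (f : X.M → X.M) : EReal :=
  Dynamics.coverEntropy f univ

/-- `μ` is an ergodic `f`-invariant Borel probability measure. -/
def IsErgodicMeasure {n : ℕ} (X : ClosedManifold n) (f : X.M → X.M) (μ : Measure X.M) : Prop :=
  IsProbabilityMeasure μ ∧ Ergodic f μ

end Pool.Agent.H49.Katok
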