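import Pool.Agent.H49.Katok.Words

/-!
# Uniform frequencies and uniqueness of the invariant measure
-/

open Set Filter MeasureTheory Topology

namespace Pool.Agent.H49.Katok

/-- `A` depends only on the coordinates `0, …, m - 1`. -/
def Det (m : ℕ) (A : Set Om) : Prop :=
  ∀ w w' : Om, (∀ i < m, w ((i : ℕ) : ℤ) = w' ((i : ℕ) : ℤ)) → (w ∈ A ↔ w' ∈ A)

/-- Characteristic function. -/
noncomputable def chi (A : Set Om) (w : Om) : ℝ := A.indicator (fun _ => (1 : ℝ)) w

lemma chi_nonneg (A : Set Om) (w : Om) : 0 ≤ chi A w :=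
  Set.indicator_nonneg (fun _ _ => zero_le_one) w

lemma chi_le_one (A : Set Om) (w : Om) : chi A w ≤ 1 :=
  Set.indicator_le_self' (fun _ _ => zero_le_one) w

lemma chi_congr {m : ℕ} {A : Set Om} (hA : Det m A) {w w' : Om}
    (h : ∀ i < m, w ((i : ℕ) : ℤ) = w' ((i : ℕ) : ℤ)) : chi A w = chi A w' := by
  have := hA w w' h
  unfold chi
  by_cases h1 : w ∈ A
  · rw [indicator_of_mem h1, indicator_of_mem (this.mp h1)]
  · rw [indicator_of_notMem h1, indicator_of_notMem (fun h2 => h1 (this.mpr h2))]

/-- Number of visits. -/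
noncomputable def S (A : Set Om) (p n : ℕ) (w : Om) : ℝ :=
  ∑ i ∈ Finset.range n, chi A (shift^[p + i] w)

lemma S_nonneg (A : Set Om) (p n : ℕ) (w : Om) : 0 ≤ S A p n w :=
  Finset.sum_nonneg fun _ _ => chi_nonneg _ _

lemma S_le (A : Set Om) (p n : ℕ) (w : Om) : S A p n w ≤ n := by
  refine (Finset.sum_le_sum fun _ _ => chi_le_one _ _).trans ?_
  simp

lemma S_add (A : Set Om) (p n n' : ℕ) (w : Om) : S A p (n + n') w = S A p n w + S A (p + n) n' w := by
  unfold S
  rw [Finset.sum_range_add]
  congr 1
  refine Finset.sum_congr rfl fun i _ => ?_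
  rw [add_assoc]

/-- Number of visits inside a word. -/
noncomputable def T (A : Set Om) (m k : ℕ) (a : Fin (N k)) : ℝ :=
  ∑ i ∈ Finset.range (len k - m), chi A (fun n => wd k a (i + n.toNat))

lemma S_block {A : Set Om} {m : ℕ} (hA : Det m A) {k : ℕ} {a : Fin (N k)} {p : ℕ} {w : Om}
    (h : ∀ i < len k, w ((p + i : ℕ) : ℤ) = wd k a i) :
    T A m k a ≤ S A p (len k) w ∧ S A p (len k) w ≤ T A m k a + m := by
  have h1 : S A p (len k - m) w = T A m k a := by
    unfold S T
    refine Finset.sum_congr rfl fun i hi => chi_congr hA fun n hn => ?_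
    rw [Finset.mem_range] at hi
    rw [shift_iterate]
    have := h (i + n) (by omega)
    simp only [Int.toNat_natCast]
    rw [← this]
    congr 1
    push_cast
    ring
  have h2 : len k = (len k - m) + (len k - (len k - m)) := by omega
  have h3 := S_add A p (len k - m) (len k - (len k - m)) w
  rw [← h2, h1] at h3
  rw [h3]
  have h4 := S_nonneg A (p + (len k - m)) (len k - (len k - m)) w
  have h5 := S_le A (p + (len k - m)) (len k - (len k - m)) w
  have h6 : ((len k - (len k - m) : ℕ) : ℝ) ≤ m := by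
    exact_mod_cast (by omega : len k - (len k - m) ≤ m)
  constructor <;> linarith

/-- Total number of visits inside the words of level `k`. -/
noncomputable def Ctot (A : Set Om) (m k : ℕ) : ℝ := ∑ a : Fin (N k), T A m k a

lemma S_mul (A : Set Om) (p n L : ℕ) (w : Om) :
    S A p (n * L) w = ∑ q ∈ Finset.range n, S A (p + q * L) L w := by
  induction n with
  | zero => simp [S]
  | succ n ih =>
    rw [Finset.sum_range_succ, ← ih, ← S_add]
    congr 1
    ring

lemma S_block_succ {A : Set Om} {m : ℕ} (hA : Det m A) {k : ℕ} {b : Fin (N (k + 1))} {p : ℕ}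
    {w : Om} (h : ∀ i < len (k + 1), w ((p + i : ℕ) : ℤ) = wd (k + 1) b i) :
    Ctot A m k ≤ S A p (len (k + 1)) w ∧ S A p (len (k + 1)) w ≤ Ctot A m k + N k * m := by
  have h1 : ∀ q : Fin (N k), T A m k (perm k b q) ≤ S A (p + q * len k) (len k) w ∧
      S A (p + q * len k) (len k) w ≤ T A m k (perm k b q) + m := by
    intro q
    apply S_block hA
    intro i hi
    rw [← wd_succ k b q hi, ← h _ (pos_lt q.isLt hi)]
    congr 1
    push_cast
    ring
  have h2 : S A p (len (k + 1)) w = ∑ q : Fin (N k), S A (p + q * len k) (len k) w := by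
    rw [len_succ, S_mul, Finset.sum_range]
  have h3 : Ctot A m k = ∑ q : Fin (N k), T A m k (perm k b q) :=
    (Equiv.sum_comp (perm k b) (fun a => T A m k a)).symm
  rw [h2, h3]
  constructor
  · exact Finset.sum_le_sum fun q _ => (h1 q).1
  · refine (Finset.sum_le_sum fun q _ => (h1 q).2).trans ?_
    rw [Finset.sum_add_distrib]
    simp

/-- Uniform frequencies. -/
lemma S_bounds {A : Set Om} {m : ℕ} (hA : Det m A) (k n : ℕ) {w : Om} (hw : w ∈ Y) :
    n * Ctot A m k ≤ S A 0 ((n + 1) * len (k + 1)) w ∧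
      S A 0 ((n + 1) * len (k + 1)) w ≤ n * (Ctot A m k + N k * m) + len (k + 1) := by
  obtain ⟨s, hs, h⟩ := hw (k + 1)
  have h1 : ∀ j, Ctot A m k ≤ S A (s + j * len (k + 1)) (len (k + 1)) w ∧
      S A (s + j * len (k + 1)) (len (k + 1)) w ≤ Ctot A m k + N k * m := by
    intro j
    obtain ⟨b, hb⟩ := h j
    exact S_block_succ hA hb
  have h2 : (n + 1) * len (k + 1) = s + (n * len (k + 1) + (len (k + 1) - s)) := by
    have : (n + 1) * len (k + 1) = n * len (k + 1) + len (k + 1) := by ring
    omega
  rw [h2, S_add, S_add, zero_add, S_mul]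
  have h3 : (n : ℝ) * Ctot A m k ≤ ∑ q ∈ Finset.range n, S A (s + q * len (k + 1)) (len (k + 1)) w := by
    have := Finset.sum_le_sum (s := Finset.range n) fun q _ => (h1 q).1
    simpa using this
  have h4 : ∑ q ∈ Finset.range n, S A (s + q * len (k + 1)) (len (k + 1)) w
      ≤ n * (Ctot A m k + N k * m) := by
    have := Finset.sum_le_sum (s := Finset.range n) fun q _ => (h1 q).2
    rw [Finset.sum_const, Finset.card_range, nsmul_eq_mul] at this
    exact this
  have h5 := S_nonneg A 0 s w
  have h6 := S_le A 0 s w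
  have h7 := S_nonneg A (s + n * len (k + 1)) (len (k + 1) - s) w
  have h8 := S_le A (s + n * len (k + 1)) (len (k + 1) - s) w
  have h9 : ((len (k + 1) - s : ℕ) : ℝ) = len (k + 1) - s := Nat.cast_sub hs.le
  rw [h9] at h8
  constructor <;> linarith

lemma T_le {A : Set Om} {m k : ℕ} (a : Fin (N k)) : T A m k a ≤ len k := by
  refine (Finset.sum_le_sum fun _ _ => chi_le_one _ _).trans ?_
  simp

lemma Ctot_nonneg (A : Set Om) (m k : ℕ) : 0 ≤ Ctot A m k :=
  Finset.sum_nonneg fun _ _ => Finset.sum_nonneg fun _ _ => chi_nonneg _ _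

lemma Ctot_le (A : Set Om) (m k : ℕ) : Ctot A m k ≤ len (k + 1) := by
  refine (Finset.sum_le_sum fun a _ => T_le a).trans ?_
  simp [len_succ]

lemma measurable_shift : Measurable shift :=
  measurable_pi_iff.mpr fun n => measurable_pi_apply (n + 1)

lemma measurable_chi {A : Set Om} (hA : MeasurableSet A) : Measurable (chi A) :=
  measurable_const.indicator hA

lemma integral_S {μ : Measure Om} [IsProbabilityMeasure μ] (hμ : MeasurePreserving shift μ μ)
    {A : Set Om} (hA : MeasurableSet A) (n : ℕ) : ∫ w, S A 0 n w ∂μ = n * μ.real A := by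
  unfold S
  have hi : ∀ i, Integrable (fun w => chi A (shift^[0 + i] w)) μ := by
    intro i
    refine Integrable.of_bound (C := 1) ?_ ?_
    · exact ((measurable_chi hA).comp (measurable_shift.iterate _)).aestronglyMeasurable
    · refine Eventually.of_forall fun w => ?_
      rw [Real.norm_eq_abs, abs_of_nonneg (chi_nonneg _ _)]
      exact chi_le_one _ _
  rw [integral_finsetSum _ fun i _ => hi i]
  have h1 : ∀ i, ∫ w, chi A (shift^[0 + i] w) ∂μ = μ.real A := by
    intro i
    have h2 : ∫ w, chi A (shift^[0 + i] w) ∂μ = ∫ w, chi A w ∂μ := by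
      have h3 := (hμ.iterate (0 + i)).map_eq
      conv_rhs => rw [← h3]
      rw [integral_map]
      · exact (measurable_shift.iterate _).aemeasurable
      · exact (measurable_chi hA).aestronglyMeasurable
    rw [h2]
    unfold chi
    rw [integral_indicator_const _ hA]
    simp
  rw [Finset.sum_congr rfl fun i _ => h1 i, Finset.sum_const, Finset.card_range, nsmul_eq_mul]

/-- Two invariant probability measures on `Y` agree on sets which depend on finitely many
nonnegative coordinates. -/
lemma measure_eq_of_det {μ ν : Measure Om} [IsProbabilityMeasure μ] [IsProbabilityMeasure ν]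
    (hμ : MeasurePreserving shift μ μ) (hν : MeasurePreserving shift ν ν)
    (hμY : ∀ᵐ w ∂μ, w ∈ Y) (hνY : ∀ᵐ w ∂ν, w ∈ Y) {m : ℕ} {A : Set Om} (hA : MeasurableSet A)
    (hd : Det m A) : μ.real A = ν.real A := by
  have bd : ∀ (μ : Measure Om) [IsProbabilityMeasure μ], MeasurePreserving shift μ μ →
      (∀ᵐ w ∂μ, w ∈ Y) → ∀ k n : ℕ,
      n * Ctot A m k ≤ (n + 1) * len (k + 1) * μ.real A ∧
      (n + 1) * len (k + 1) * μ.real A ≤ n * (Ctot A m k + N k * m) + len (k + 1) := by
    intro μ _ hμ hμY k n
    have h1 := integral_S hμ hA ((n + 1) * len (k + 1))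
    have hint : Integrable (fun w => S A 0 ((n + 1) * len (k + 1)) w) μ := by
      unfold S
      refine integrable_finsetSum _ fun i _ => ?_
      refine Integrable.of_bound (C := 1) ?_ ?_
      · exact ((measurable_chi hA).comp (measurable_shift.iterate _)).aestronglyMeasurable
      · refine Eventually.of_forall fun w => ?_
        rw [Real.norm_eq_abs, abs_of_nonneg (chi_nonneg _ _)]
        exact chi_le_one _ _
    push_cast at h1
    rw [← h1]
    constructor
    · have h2 : ∫ _, (n * Ctot A m k : ℝ) ∂μ ≤ ∫ w, S A 0 ((n + 1) * len (k + 1)) w ∂μ := by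
        refine integral_mono_ae (integrable_const _) hint ?_
        filter_upwards [hμY] with w hw
        exact (S_bounds hd k n hw).1
      simpa using h2
    · have h2 : ∫ w, S A 0 ((n + 1) * len (k + 1)) w ∂μ
          ≤ ∫ _, (n * (Ctot A m k + N k * m) + len (k + 1) : ℝ) ∂μ := by
        refine integral_mono_ae hint (integrable_const _) ?_
        filter_upwards [hμY] with w hw
        exact (S_bounds hd k n hw).2
      simpa using h2
  -- the difference is at most `2 / (k + 1) + m / (k + 1)`
  have key : ∀ k : ℕ, |μ.real A - ν.real A| ≤ (1 + m) / ((k : ℝ) + 1) := by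
    intro k
    have h1 := bd μ hμ hμY k k
    have h2 := bd ν hν hνY k k
    have hL : (0 : ℝ) < len (k + 1) := by exact_mod_cast len_pos _
    have hC := Ctot_nonneg A m k
    have hk : (0 : ℝ) < (k : ℝ) + 1 := by positivity
    have h3 : ((k : ℝ) + 1) * len (k + 1) * |μ.real A - ν.real A|
        ≤ k * (N k * m) + len (k + 1) := by
      have h4 : ((k : ℝ) + 1) * len (k + 1) * |μ.real A - ν.real A|
          = |((k : ℝ) + 1) * len (k + 1) * μ.real A - ((k : ℝ) + 1) * len (k + 1) * ν.real A| := by
        rw [← mul_sub, abs_mul, abs_of_pos (mul_pos hk hL)]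
      rw [h4, abs_le]
      constructor
      · nlinarith [h1.1, h2.2]
      · nlinarith [h1.2, h2.1]
    have h5 : (k : ℝ) * (N k * m) ≤ len (k + 1) * m := by
      have h6 : (k : ℝ) ≤ len k := by exact_mod_cast (lt_len k).le
      rw [len_succ]
      push_cast
      have h7 : (k : ℝ) * (N k * m) = (N k * k) * m := by ring
      rw [h7]
      have h8 : (N k : ℝ) * k ≤ N k * len k := mul_le_mul_of_nonneg_left h6 (by positivity)
      exact mul_le_mul_of_nonneg_right h8 (by positivity)
    rw [le_div_iff₀ hk]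
    have h9 : (len (k + 1) : ℝ) * (|μ.real A - ν.real A| * ((k : ℝ) + 1))
        ≤ len (k + 1) * (1 + m) := by
      nlinarith
    exact le_of_mul_le_mul_left h9 hL
  have h0 : Tendsto (fun k : ℕ => (1 + m : ℝ) / ((k : ℝ) + 1)) atTop (𝓝 0) :=
    tendsto_const_nhds.div_atTop (tendsto_atTop_add_const_right _ _ tendsto_natCast_atTop_atTop)
  have h1 : |μ.real A - ν.real A| ≤ 0 := ge_of_tendsto' h0 key
  have h2 := abs_nonpos_iff.mp h1
  linarith

/-- Unique ergodicity of the shift on `Y`. -/
theorem unique_measure {μ ν : Measure Om} [IsProbabilityMeasure μ] [IsProbabilityMeasure ν]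
    (hμ : MeasurePreserving shift μ μ) (hν : MeasurePreserving shift ν ν)
    (hμY : ∀ᵐ w ∂μ, w ∈ Y) (hνY : ∀ᵐ w ∂ν, w ∈ Y) : μ = ν := by
  -- finite windows
  have key : ∀ (I : Finset ℤ) (u : I → Bool),
      μ (I.restrict ⁻¹' {u}) = ν (I.restrict ⁻¹' {u}) := by
    intro I u
    obtain ⟨M, hM⟩ : ∃ M : ℕ, ∀ i ∈ I, -(M : ℤ) ≤ i ∧ i < M := by
      refine ⟨(∑ i ∈ I, i.natAbs) + 1, fun i hi => ?_⟩
      have : i.natAbs ≤ ∑ i ∈ I, i.natAbs := Finset.single_le_sum (f := fun i : ℤ => i.natAbs)
        (fun _ _ => Nat.zero_le _) hi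
      omega
    set A : Set Om := I.restrict ⁻¹' {u} with hAdef
    have hA : MeasurableSet A := (Finset.measurable_restrict I) (measurableSet_singleton u)
    have hB : MeasurableSet (shift^[M] ⁻¹' A) := (measurable_shift.iterate M) hA
    have hd : Det (2 * M) (shift^[M] ⁻¹' A) := by
      intro w w' h
      have h1 : ∀ i ∈ I, (shift^[M] w) i = (shift^[M] w') i := by
        intro i hi
        rw [shift_iterate, shift_iterate]
        obtain ⟨h2, h3⟩ := hM i hi
        have h4 := h (i + M).toNat (by omega)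
        rwa [Int.toNat_of_nonneg (by omega)] at h4
      have h2 : I.restrict (shift^[M] w) = I.restrict (shift^[M] w') :=
        funext fun i => h1 i i.2
      simp only [hAdef, mem_preimage, mem_singleton_iff, h2]
    have h1 := measure_eq_of_det hμ hν hμY hνY hB hd
    rw [measureReal_def, measureReal_def, (hμ.iterate M).measure_preimage hA.nullMeasurableSet,
      (hν.iterate M).measure_preimage hA.nullMeasurableSet] at h1
    exact (ENNReal.toReal_eq_toReal_iff' (measure_ne_top _ _) (measure_ne_top _ _)).mp h1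
  have h1 : ∀ I : Finset ℤ, μ.map I.restrict = ν.map I.restrict := by
    intro I
    refine Measure.ext_of_singleton fun u => ?_
    rw [Measure.map_apply (Finset.measurable_restrict I) (measurableSet_singleton u),
      Measure.map_apply (Finset.measurable_restrict I) (measurableSet_singleton u), key]
  exact IsProjectiveLimit.unique (P := fun I : Finset ℤ => ν.map I.restrict) h1 (fun _ => rfl)

end Pool.Agent.H49.Katok
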