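import Pool.Agent.H49.Katok.Lifts
import Pool.Agent.H49.Katok.UE
import Pool.Agent.H49.Katok.Defs

/-!
# Dynamics of the diffeomorphism: topological entropy and invariant measures
-/

open Set Filter Topology MeasureTheory Uniformity
open scoped ContDiff

namespace Pool.Agent.H49.Katok

/-- The diffeomorphism of the three-torus, as a map. -/
noncomputable def F : T3 → T3 := lF.desc

lemma F_piT (v : V) : F (piT v) = piT (lF.Φ v) := lF.desc_piT v

lemma continuous_F : Continuous F := lF.diffeo.continuous

/-- On the subshift the map acts as the shift. -/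
lemma F_code {w : Om} (hw : w ∈ Y) : F (code w) = code (shift w) := by
  unfold code
  rw [F_piT, lF_apply]
  have h1 : del ((pl w).1, (pl w).2, 0) = 0 := by
    rw [del_eq_zero_iff]
    right
    refine ⟨aa_zero, ?_⟩
    rw [rho_eq_zero_iff]
    exact ⟨w, hw, 0, 0, by simp⟩
  have h2 : phi (pl w).2 = (pl w).2 := by
    apply phi_eq
    have := (pl_mem w).2
    rw [abs_le]
    constructor <;> linarith [this.1, this.2]
  simp only [h1, h2, aa_zero, add_zero, one_mul]
  have h3 : (pl w).1 + (pl w).2 = X w 1 := by simp only [pl]; ring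
  have h4 : psi (X w 1) = X w 2 - 2 * X w 1 + X w 0 := by
    have := psi_X w 1
    norm_num at this
    exact this
  rw [h3, h4]
  congr 1
  refine Prod.ext ?_ (Prod.ext ?_ rfl)
  · simp only [pl, X_shift]; norm_num
  · simp only [pl, X_shift]; norm_num; ring

lemma iterate_shift_mem {w : Om} (hw : w ∈ Y) (i : ℕ) : shift^[i] w ∈ Y := by
  induction i generalizing w with
  | zero => exact hw
  | succ i ih => rw [Function.iterate_succ_apply]; exact ih (shift_mem_Y hw)

lemma F_iterate_code {w : Om} (hw : w ∈ Y) (i : ℕ) : F^[i] (code w) = code (shift^[i] w) := by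
  induction i generalizing w with
  | zero => rfl
  | succ i ih =>
    rw [Function.iterate_succ_apply, Function.iterate_succ_apply, F_code hw, ih (shift_mem_Y hw)]

/-! ### Topological entropy -/

/-- The entourage which separates the two branches. -/
def ent : Set (T3 × T3) := {p | dist p.1.1 p.2.1 < 1 / 24}

lemma ent_mem : ent ∈ 𝓤 T3 := by
  have h : {p : T3 × T3 | dist p.1 p.2 < 1 / 24} ∈ 𝓤 T3 := Metric.dist_mem_uniformity (by norm_num)
  refine mem_of_superset h fun p hp => ?_
  have h1 : dist p.1.1 p.2.1 ≤ dist p.1 p.2 := by rw [Prod.dist_eq]; exact le_max_left _ _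
  exact lt_of_le_of_lt h1 hp

lemma dist_coe_of_abs_le {a b : ℝ} (h : |a - b| ≤ 1 / 4) :
    dist (a : UnitAddCircle) (b : UnitAddCircle) = |a - b| := by
  rw [dist_eq_norm, ← AddCircle.coe_sub, UnitAddCircle.norm_eq]
  have : round (a - b) = 0 := by
    rw [round_eq, Int.floor_eq_zero_iff]
    rw [abs_le] at h
    constructor <;> linarith [h.1, h.2]
  rw [this]
  simp

lemma code_fst (w : Om) : (code w).1 = (X w 0 : UnitAddCircle) := rfl

lemma dist_code_ge {w w' : Om} (h : w 0 ≠ w' 0) : 1 / 12 ≤ dist (code w).1 (code w').1 := by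
  rw [code_fst, code_fst]
  have h1 := X_bit w 0
  have h2 := X_bit w' 0
  have h3 : 1 / 12 ≤ |X w 0 - X w' 0| ∧ |X w 0 - X w' 0| ≤ 1 / 4 := by
    rcases h1 with ⟨h1, h1'⟩ | ⟨h1, h1'⟩ <;> rcases h2 with ⟨h2, h2'⟩ | ⟨h2, h2'⟩
    · exact absurd (h1.trans h2.symm) h
    · rw [abs_of_nonpos (by linarith [h1'.2, h2'.1])]
      constructor <;> linarith [h1'.1, h1'.2, h2'.1, h2'.2]
    · rw [abs_of_nonneg (by linarith [h1'.1, h2'.2])]
      constructor <;> linarith [h1'.1, h1'.2, h2'.1, h2'.2]
    · exact absurd (h1.trans h2.symm) h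
  rw [dist_coe_of_abs_le h3.2]
  exact h3.1

lemma net_card (k : ℕ) : (N k : ℕ∞) ≤ Dynamics.netMaxcard F univ ent (len k) := by
  classical
  set s : Finset T3 := Finset.univ.image fun a : Fin (N k) => code (ptY k a) with hs
  have hinj : Function.Injective fun a : Fin (N k) => code (ptY k a) := by
    intro a a' h
    have h1 : ptY k a = ptY k a' := code_injective h
    apply wd_injective
    intro i hi
    rw [← ptY_apply k a hi, ← ptY_apply k a' hi, h1]
  have hcard : s.card = N k := by
    rw [hs, Finset.card_image_of_injective _ hinj, Finset.card_univ, Fintype.card_fin]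
  have hnet : Dynamics.IsDynNetIn F univ ent (len k) (s : Set T3) := by
    refine ⟨subset_univ _, ?_⟩
    intro z hz z' hz' hne
    simp only [hs, Finset.coe_image, Finset.coe_univ, image_univ, mem_range] at hz hz'
    obtain ⟨a, rfl⟩ := hz
    obtain ⟨a', rfl⟩ := hz'
    have haa : a ≠ a' := fun h => hne (by rw [h])
    obtain ⟨i, hi, hne'⟩ : ∃ i < len k, wd k a i ≠ wd k a' i := by
      by_contra hcon
      push Not at hcon
      exact haa (wd_injective k a a' hcon)
    rw [Function.onFun, disjoint_left]
    intro z hz hz'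
    rw [Dynamics.mem_ball_dynEntourage] at hz hz'
    have h1 := hz i hi
    have h2 := hz' i hi
    rw [F_iterate_code (ptY_mem k a)] at h1
    rw [F_iterate_code (ptY_mem k a')] at h2
    have h1' : dist (code (shift^[i] (ptY k a))).1 (F^[i] z).1 < 1 / 24 := h1
    have h2' : dist (code (shift^[i] (ptY k a'))).1 (F^[i] z).1 < 1 / 24 := h2
    have h3 : 1 / 12 ≤ dist (code (shift^[i] (ptY k a))).1 (code (shift^[i] (ptY k a'))).1 := by
      apply dist_code_ge
      rw [shift_iterate, shift_iterate, zero_add, ptY_apply k a hi, ptY_apply k a' hi]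
      exact hne'
    have h4 := dist_triangle_right (code (shift^[i] (ptY k a))).1 (code (shift^[i] (ptY k a'))).1
      (F^[i] z).1
    linarith
  have := hnet.card_le_netMaxcard
  rwa [hcard] at this

lemma entropy_ge : ((1 / 4 : ℝ) : EReal) ≤ Dynamics.coverEntropy F univ := by
  refine le_trans ?_ (Dynamics.netEntropyEntourage_le_coverEntropy F univ ent_mem)
  unfold Dynamics.netEntropyEntourage ExpGrowth.expGrowthSup
  apply le_limsup_of_frequently_le
  · rw [frequently_atTop]
    intro n
    refine ⟨len n, (lt_len n).le, ?_⟩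
    have h1 := net_card n
    have hL : (0 : ℝ) < len n := by exact_mod_cast len_pos n
    have hN : (0 : ℝ) < N n := by exact_mod_cast N_pos n
    have h2 : ((Real.log (N n) : ℝ) : EReal)
        ≤ ENNReal.log ((Dynamics.netMaxcard F univ ent (len n) : ℕ∞) : ENNReal) := by
      have h3 : ((N n : ℕ) : ENNReal) ≤ ((Dynamics.netMaxcard F univ ent (len n) : ℕ∞) : ENNReal) := by
        exact_mod_cast ENat.toENNReal_mono h1
      refine le_trans ?_ (ENNReal.log_monotone h3)
      have h4 : ((N n : ℕ) : ENNReal) = ENNReal.ofReal (N n : ℝ) := by simp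
      rw [h4, ENNReal.log_ofReal_of_pos hN]
    have h5 := log_N_ge n
    have h6 : ((1 / 4 : ℝ) : EReal) ≤ ((Real.log (N n) : ℝ) : EReal) / (len n : EReal) := by
      have h7 : ((Real.log (N n) : ℝ) : EReal) / (len n : EReal)
          = ((Real.log (N n) / len n : ℝ) : EReal) := by
        rw [EReal.coe_div]
        rfl
      rw [h7, EReal.coe_le_coe_iff, le_div_iff₀ hL]
      exact h5
    refine h6.trans ?_
    exact EReal.div_le_div_right_of_nonneg (by positivity) h2
  · exact isBoundedUnder_of ⟨⊤, fun _ => le_top⟩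

end Pool.Agent.H49.Katok
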