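import Pool.Agent.H49.Katok.Meas

/-!
# A number which is not the entropy of an ergodic measure
-/

open Set Filter Topology MeasureTheory
open scoped ContDiff Manifold

namespace Pool.Agent.H49.Katok

lemma exists_gap : ∃ β : ℝ, 0 ≤ β ∧ (β : EReal) < Dynamics.coverEntropy F univ ∧
    ∀ m : Measure T3, IsProbabilityMeasure m → Ergodic F m → ksEntropy F m ≠ β := by
  obtain ⟨c, hc⟩ : ∃ c : EReal, ∀ m : Measure T3, IsProbabilityMeasure m → Ergodic F m →
      (∀ᵐ z ∂m, z ∈ Z2) → ksEntropy F m = c := by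
    by_cases h : ∃ m : Measure T3, IsProbabilityMeasure m ∧ Ergodic F m ∧ ∀ᵐ z ∂m, z ∈ Z2
    · obtain ⟨m, i, h1, h2⟩ := h
      refine ⟨ksEntropy F m, fun m' i' h1' h2' => ?_⟩
      rw [unique_on_Z2 h1'.toMeasurePreserving h1.toMeasurePreserving h2' h2]
    · exact ⟨0, fun m i h1 h2 => absurd ⟨m, i, h1, h2⟩ h⟩
  obtain ⟨β, h0, h1, h2⟩ : ∃ β : ℝ, 0 < β ∧ β < 1 / 4 ∧ (β : EReal) ≠ c := by
    by_cases h : ((1 / 8 : ℝ) : EReal) = c
    · refine ⟨1 / 16, by norm_num, by norm_num, fun h' => ?_⟩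
      rw [← h, EReal.coe_eq_coe_iff] at h'
      norm_num at h'
    · exact ⟨1 / 8, by norm_num, by norm_num, h⟩
  refine ⟨β, h0.le, ?_, fun m i hm h => ?_⟩
  · exact lt_of_lt_of_le (EReal.coe_lt_coe_iff.mpr h1) entropy_ge
  · rcases ergodic_dichotomy hm with h3 | h3
    · have h4 := ksEntropy_of_barrier hm h3
      rw [h] at h4
      have : β ≤ 0 := by exact_mod_cast h4
      linarith
    · rw [hc m i hm h3] at h
      exact h2 h.symm

end Pool.Agent.H49.Katok
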