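import Pool.Agent.H49.Katok.Maps

/-!
# The diffeomorphism of the three-torus
-/

open Set Filter Topology
open scoped ContDiff

namespace Pool.Agent.H49.Katok

/-- The inverse of a smooth bijection with invertible derivative is smooth. -/
lemma contDiff_inverse {E : Type} [NormedAddCommGroup E] [NormedSpace ℝ E] [CompleteSpace E]
    (f : E ≃ E) (hf : ContDiff ℝ ∞ f)
    (hd : ∀ x, ∃ A : E ≃L[ℝ] E, HasFDerivAt f (A : E →L[ℝ] E) x) : ContDiff ℝ ∞ f.symm := by
  rw [contDiff_iff_contDiffAt]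
  intro y
  obtain ⟨A, hA⟩ := hd (f.symm y)
  have hn : (∞ : WithTop ℕ∞) ≠ 0 := by simp
  have h1 := (hf.contDiffAt (x := f.symm y)).to_localInverse hA hn
  have h2 := (hf.contDiffAt (x := f.symm y)).hasStrictFDerivAt' hA hn
  rw [f.apply_symm_apply] at h1
  refine h1.congr_of_eventuallyEq ?_
  have h3 := h2.eventually_right_inverse
  rw [f.apply_symm_apply] at h3
  filter_upwards [h3] with z hz
  apply f.injective
  rw [f.apply_symm_apply]
  exact hz.symm

/-- The first shear. -/
noncomputable def lA : LiftEquiv where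
  Φ :=
    { toFun := fun v => (v.1 + aa v.2.2 * phi v.2.1, v.2.1, v.2.2)
      invFun := fun v => (v.1 - aa v.2.2 * phi v.2.1, v.2.1, v.2.2)
      left_inv := fun v => by simp
      right_inv := fun v => by simp }
  equi v m := by
    simp only [latt, Equiv.coe_fn_mk, Prod.fst_add, Prod.snd_add, aa_add_int, phi_add_int]
    refine Prod.ext ?_ rfl
    simp only [Prod.fst_add]
    ring
  smooth := by
    have h1 : ContDiff ℝ ∞ (fun v : V => aa v.2.2) :=
      contDiff_aa.comp (contDiff_snd.comp contDiff_snd)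
    have h2 : ContDiff ℝ ∞ (fun v : V => phi v.2.1) :=
      contDiff_phi.comp (contDiff_fst.comp contDiff_snd)
    exact (contDiff_fst.add (h1.mul h2)).prodMk contDiff_snd
  smooth_symm := by
    have h1 : ContDiff ℝ ∞ (fun v : V => aa v.2.2) :=
      contDiff_aa.comp (contDiff_snd.comp contDiff_snd)
    have h2 : ContDiff ℝ ∞ (fun v : V => phi v.2.1) :=
      contDiff_phi.comp (contDiff_fst.comp contDiff_snd)
    exact (contDiff_fst.sub (h1.mul h2)).prodMk contDiff_snd

/-- The second shear. -/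
noncomputable def lB : LiftEquiv where
  Φ :=
    { toFun := fun v => (v.1, v.2.1 + aa v.2.2 * psi v.1, v.2.2)
      invFun := fun v => (v.1, v.2.1 - aa v.2.2 * psi v.1, v.2.2)
      left_inv := fun v => by simp
      right_inv := fun v => by simp }
  equi v m := by
    simp only [latt, Equiv.coe_fn_mk, Prod.fst_add, Prod.snd_add, aa_add_int, psi_add_int]
    refine Prod.ext rfl (Prod.ext ?_ rfl)
    simp only [Prod.fst_add, Prod.snd_add]
    ring
  smooth := by
    have h1 : ContDiff ℝ ∞ (fun v : V => aa v.2.2) :=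
      contDiff_aa.comp (contDiff_snd.comp contDiff_snd)
    have h2 : ContDiff ℝ ∞ (fun v : V => psi v.1) := contDiff_psi.comp contDiff_fst
    exact contDiff_fst.prodMk (((contDiff_fst.comp contDiff_snd).add (h1.mul h2)).prodMk
      (contDiff_snd.comp contDiff_snd))
  smooth_symm := by
    have h1 : ContDiff ℝ ∞ (fun v : V => aa v.2.2) :=
      contDiff_aa.comp (contDiff_snd.comp contDiff_snd)
    have h2 : ContDiff ℝ ∞ (fun v : V => psi v.1) := contDiff_psi.comp contDiff_fst
    exact contDiff_fst.prodMk (((contDiff_fst.comp contDiff_snd).sub (h1.mul h2)).prodMk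
      (contDiff_snd.comp contDiff_snd))

/-- The drift. -/
noncomputable def cmap (v : V) : V := (v.1, v.2.1, v.2.2 + del v)

lemma del_le (v : V) : del v ≤ 1 / 10 := by
  unfold del
  have h1 := aa_nonneg v.2.2
  have h2 := aa_le_one v.2.2
  have h3 := rho_le_one (v.1, v.2.1)
  have h4 := rho_nonneg (v.1, v.2.1)
  nlinarith

lemma strictMono_c (x y : ℝ) : StrictMono fun s => s + del (x, y, s) := by
  apply strictMono_of_deriv_pos
  intro s
  obtain ⟨d, hd, h⟩ := hasDerivAt_del x y s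
  have h1 := (hasDerivAt_id s).add h
  have h2 : deriv (fun s => s + del (x, y, s)) s = 1 + d := h1.deriv
  rw [h2]
  have := (abs_le.mp hd).1
  linarith

lemma continuous_c (x y : ℝ) : Continuous fun s => s + del (x, y, s) := by
  have := contDiff_del.continuous
  fun_prop

lemma surjective_c (x y : ℝ) : Function.Surjective fun s => s + del (x, y, s) := by
  apply (continuous_c x y).surjective
  · exact tendsto_atTop_mono (fun s => le_add_of_nonneg_right (del_nonneg (x, y, s))) tendsto_id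
  · exact tendsto_atBot_mono (fun s => add_le_add_right (del_le (x, y, s)) s)
      (tendsto_atBot_add_const_right _ _ tendsto_id)

lemma bijective_cmap : Function.Bijective cmap := by
  constructor
  · rintro ⟨x, y, s⟩ ⟨x', y', s'⟩ h
    simp only [cmap, Prod.mk.injEq] at h
    obtain ⟨rfl, rfl, h⟩ := h
    rw [(strictMono_c x y).injective h]
  · rintro ⟨x, y, t⟩
    obtain ⟨s, hs⟩ := surjective_c x y t
    exact ⟨(x, y, s), by simp only [cmap]; rw [show s + del (x, y, s) = t from hs]⟩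

lemma contDiff_cmap : ContDiff ℝ ∞ cmap :=
  contDiff_fst.prodMk ((contDiff_fst.comp contDiff_snd).prodMk
    ((contDiff_snd.comp contDiff_snd).add contDiff_del))

lemma hasFDerivAt_cmap (v : V) : ∃ A : V ≃L[ℝ] V, HasFDerivAt cmap (A : V →L[ℝ] V) v := by
  set L : V →L[ℝ] ℝ := fderiv ℝ del v with hL
  have hdel : HasFDerivAt del L v :=
    (contDiff_del.differentiable (by simp) v).hasFDerivAt
  have hD : HasFDerivAt cmap ((ContinuousLinearMap.fst ℝ ℝ (ℝ × ℝ)).prod
      (((ContinuousLinearMap.fst ℝ ℝ ℝ).comp (ContinuousLinearMap.snd ℝ ℝ (ℝ × ℝ))).prod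
      ((ContinuousLinearMap.snd ℝ ℝ ℝ).comp (ContinuousLinearMap.snd ℝ ℝ (ℝ × ℝ)) + L))) v := by
    have h1 : HasFDerivAt (fun v : V => v.1) (ContinuousLinearMap.fst ℝ ℝ (ℝ × ℝ)) v :=
      (ContinuousLinearMap.fst ℝ ℝ (ℝ × ℝ)).hasFDerivAt
    have h2 : HasFDerivAt (fun v : V => v.2.1)
        ((ContinuousLinearMap.fst ℝ ℝ ℝ).comp (ContinuousLinearMap.snd ℝ ℝ (ℝ × ℝ))) v :=
      ((ContinuousLinearMap.fst ℝ ℝ ℝ).comp (ContinuousLinearMap.snd ℝ ℝ (ℝ × ℝ))).hasFDerivAt
    have h3 : HasFDerivAt (fun v : V => v.2.2)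
        ((ContinuousLinearMap.snd ℝ ℝ ℝ).comp (ContinuousLinearMap.snd ℝ ℝ (ℝ × ℝ))) v :=
      ((ContinuousLinearMap.snd ℝ ℝ ℝ).comp (ContinuousLinearMap.snd ℝ ℝ (ℝ × ℝ))).hasFDerivAt
    exact h1.prodMk (h2.prodMk (h3.add hdel))
  set D := ((ContinuousLinearMap.fst ℝ ℝ (ℝ × ℝ)).prod
      (((ContinuousLinearMap.fst ℝ ℝ ℝ).comp (ContinuousLinearMap.snd ℝ ℝ (ℝ × ℝ))).prod
      ((ContinuousLinearMap.snd ℝ ℝ ℝ).comp (ContinuousLinearMap.snd ℝ ℝ (ℝ × ℝ)) + L))) with hDdef
  -- the partial derivative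
  have hpos : 0 < 1 + L (0, 0, 1) := by
    obtain ⟨d, hd, h⟩ := hasDerivAt_del v.1 v.2.1 v.2.2
    have h4 : HasDerivAt (fun s : ℝ => ((v.1, v.2.1, s) : V)) ((0 : ℝ), (0 : ℝ), (1 : ℝ)) v.2.2 :=
      (hasDerivAt_const _ _).prodMk ((hasDerivAt_const _ _).prodMk (hasDerivAt_id _))
    have h5 : HasDerivAt (fun s => del (v.1, v.2.1, s)) (L (0, 0, 1)) v.2.2 :=
      HasFDerivAt.comp_hasDerivAt v.2.2 (f := fun s : ℝ => ((v.1, v.2.1, s) : V)) hdel h4
    rw [h5.unique h]
    have := (abs_le.mp hd).1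
    linarith
  have hinj : Function.Injective (D : V →ₗ[ℝ] V) := by
    rw [injective_iff_map_eq_zero]
    rintro ⟨x, y, s⟩ h
    have h1 : x = 0 := congrArg Prod.fst h
    have h2 : y = 0 := congrArg (fun v : V => v.2.1) h
    have h3 : s + L (x, y, s) = 0 := congrArg (fun v : V => v.2.2) h
    subst h1 h2
    have h4 : L (0, 0, s) = s * L (0, 0, 1) := by
      rw [← smul_eq_mul, ← map_smul]
      simp
    rw [h4] at h3
    have h5 : s * (1 + L (0, 0, 1)) = 0 := by linarith
    rcases mul_eq_zero.mp h5 with h6 | h6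
    · rw [h6]; rfl
    · exact absurd h6 hpos.ne'
  refine ⟨(LinearEquiv.ofInjectiveEndo (D : V →ₗ[ℝ] V) hinj).toContinuousLinearEquiv, ?_⟩
  have h6 : (((LinearEquiv.ofInjectiveEndo (D : V →ₗ[ℝ] V) hinj).toContinuousLinearEquiv : V ≃L[ℝ] V)
      : V →L[ℝ] V) = D := by
    ext <;> simp
  rw [h6]
  exact hD

/-- The drift, as an equivalence. -/
noncomputable def lC : LiftEquiv where
  Φ := Equiv.ofBijective cmap bijective_cmap
  equi v m := by
    simp only [Equiv.ofBijective_apply, cmap, del_add_latt]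
    refine Prod.ext rfl (Prod.ext rfl ?_)
    simp only [latt, Prod.snd_add]
    ring
  smooth := contDiff_cmap
  smooth_symm := contDiff_inverse _ contDiff_cmap hasFDerivAt_cmap

/-- The lift of the diffeomorphism. -/
noncomputable def lF : LiftEquiv := lB.comp (lA.comp lC)

lemma lF_apply (v : V) : lF.Φ v =
    (v.1 + aa (v.2.2 + del v) * phi v.2.1,
      v.2.1 + aa (v.2.2 + del v) * psi (v.1 + aa (v.2.2 + del v) * phi v.2.1),
      v.2.2 + del v) := rfl

end Pool.Agent.H49.Katok
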