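import Pool.Agent.H49.Katok.Coding

/-!
# The smooth maps
-/

open Set Filter Topology
open scoped ContDiff

namespace Pool.Agent.H49.Katok

/-! ### Periodic smooth functions of one variable -/

/-- Periodization of a function supported in the open unit cell. -/
noncomputable def per (χ : ℝ → ℝ) (y : ℝ) : ℝ := χ (y - round y)

lemma per_add_int (χ : ℝ → ℝ) (y : ℝ) (m : ℤ) : per χ (y + m) = per χ y := by
  unfold per
  rw [round_add_intCast]
  congr 1
  push_cast
  ring

lemma per_eq {χ : ℝ → ℝ} {y : ℝ} (h : |y| < 1 / 2) : per χ y = χ y := by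
  have : round y = 0 := by
    rw [round_eq, Int.floor_eq_zero_iff]
    rw [abs_lt] at h
    constructor <;> linarith [h.1, h.2]
  unfold per
  rw [this]
  simp

lemma contDiff_per {χ : ℝ → ℝ} (h : ContDiff ℝ ∞ χ) (hs : ∀ y, 3 / 8 ≤ |y| → χ y = 0) :
    ContDiff ℝ ∞ (per χ) := by
  rw [contDiff_iff_contDiffAt]
  intro y
  set n : ℤ := round y with hn
  have hf : (n : ℝ) ≤ y + 1 / 2 := by rw [hn, round_eq]; exact Int.floor_le _
  have hf' : y + 1 / 2 < n + 1 := by rw [hn, round_eq]; exact Int.lt_floor_add_one _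
  rcases hf.eq_or_lt with h1 | h1
  · have h2 : ∀ᶠ z in 𝓝 y, per χ z = 0 := by
      have h3 : Ioo (y - 1 / 8) (y + 1 / 8) ∈ 𝓝 y := Ioo_mem_nhds (by linarith) (by linarith)
      filter_upwards [h3] with z hz
      unfold per
      apply hs
      rcases le_or_gt y z with h4 | h4
      · have h5 : round z = n := by
          rw [round_eq, Int.floor_eq_iff]
          constructor <;> linarith [hz.2]
        rw [h5, abs_of_neg (by linarith [hz.2])]
        linarith [hz.2]
      · have h5 : round z = n - 1 := by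
          rw [round_eq, Int.floor_eq_iff]
          push_cast
          constructor <;> linarith [hz.1]
        rw [h5]
        push_cast
        rw [abs_of_pos (by linarith [hz.1])]
        linarith [hz.1]
    exact contDiffAt_const.congr_of_eventuallyEq h2
  · have h2 : ∀ᶠ z in 𝓝 y, per χ z = χ (z - n) := by
      have h3 : Ioo (n - 1 / 2 : ℝ) (n + 1 / 2) ∈ 𝓝 y := Ioo_mem_nhds (by linarith) (by linarith)
      filter_upwards [h3] with z hz
      have h5 : round z = n := by
        rw [round_eq, Int.floor_eq_iff]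
        constructor <;> linarith [hz.1, hz.2]
      unfold per
      rw [h5]
    have h3 : ContDiffAt ℝ ∞ (fun z => χ (z - n)) y :=
      (h.comp (contDiff_id.sub contDiff_const)).contDiffAt
    exact h3.congr_of_eventuallyEq h2

/-- A bump function, equal to one on `[-1/4, 1/4]` and supported in `[-3/8, 3/8]`. -/
noncomputable def bmp : ContDiffBump (0 : ℝ) := ⟨1 / 4, 3 / 8, by norm_num, by norm_num⟩

lemma bmp_one {y : ℝ} (h : |y| ≤ 1 / 4) : bmp y = 1 :=
  bmp.one_of_mem_closedBall (by rw [mem_closedBall_zero_iff]; exact h)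

lemma bmp_zero {y : ℝ} (h : 3 / 8 ≤ |y|) : bmp y = 0 :=
  bmp.zero_of_le_dist (by rw [dist_zero_right]; exact h)

/-- The first shear function. -/
noncomputable def phi : ℝ → ℝ := per fun y => y * bmp y

/-- The second shear function. -/
noncomputable def psi : ℝ → ℝ :=
  per fun x => 16 / 5 * (x - 1 / 4 * Real.smoothTransition (12 * x - 1)) * bmp x

lemma contDiff_phi : ContDiff ℝ ∞ phi := by
  apply contDiff_per
  · exact contDiff_id.mul bmp.contDiff
  · intro y hy
    rw [bmp_zero hy, mul_zero]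

lemma contDiff_psi : ContDiff ℝ ∞ psi := by
  apply contDiff_per
  · have h1 : ContDiff ℝ ∞ (fun x : ℝ => Real.smoothTransition (12 * x - 1)) :=
      Real.smoothTransition.contDiff.comp ((contDiff_const.mul contDiff_id).sub contDiff_const)
    exact (contDiff_const.mul (contDiff_id.sub (contDiff_const.mul h1))).mul bmp.contDiff
  · intro y hy
    rw [bmp_zero hy, mul_zero]

lemma phi_add_int (y : ℝ) (m : ℤ) : phi (y + m) = phi y := per_add_int _ y m
lemma psi_add_int (y : ℝ) (m : ℤ) : psi (y + m) = psi y := per_add_int _ y m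

lemma phi_eq {y : ℝ} (h : |y| ≤ 1 / 4) : phi y = y := by
  unfold phi
  rw [per_eq (by linarith), bmp_one h, mul_one]

lemma psi_X (w : Om) (n : ℤ) : psi (X w n) = X w (n + 1) - 2 * X w n + X w (n - 1) := by
  have h0 := X_nonneg w n
  have h1 := X_le w n
  have h2 : |X w n| ≤ 1 / 4 := by rw [abs_of_nonneg h0]; exact h1
  have h3 := X_rec w n
  unfold psi
  rw [per_eq (by linarith), bmp_one h2, mul_one]
  rcases X_bit w n with ⟨hb, hI⟩ | ⟨hb, hI⟩
  · rw [Real.smoothTransition.zero_of_nonpos (by linarith [hI.2])]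
    rw [hb] at h3
    simp only [bit] at h3
    simp at h3
    linarith
  · rw [Real.smoothTransition.one_of_one_le (by linarith [hI.1])]
    rw [hb] at h3
    simp only [bit] at h3
    simp at h3
    linarith

/-- The function which switches the shears off. -/
noncomputable def aa (t : ℝ) : ℝ := (1 + Real.cos (2 * Real.pi * t)) / 2

lemma contDiff_aa : ContDiff ℝ ∞ aa := by
  unfold aa
  fun_prop

lemma aa_add_int (t : ℝ) (m : ℤ) : aa (t + m) = aa t := by
  unfold aa
  rw [show 2 * Real.pi * (t + m) = 2 * Real.pi * t + m * (2 * Real.pi) by ring,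
    Real.cos_add_int_mul_two_pi]

lemma aa_nonneg (t : ℝ) : 0 ≤ aa t := by
  unfold aa; linarith [Real.neg_one_le_cos (2 * Real.pi * t)]
lemma aa_le_one (t : ℝ) : aa t ≤ 1 := by
  unfold aa; linarith [Real.cos_le_one (2 * Real.pi * t)]

lemma aa_zero : aa 0 = 1 := by unfold aa; norm_num

lemma aa_eq_one_iff (t : ℝ) : aa t = 1 ↔ ∃ m : ℤ, t = m := by
  unfold aa
  constructor
  · intro h
    have h1 : Real.cos (2 * Real.pi * t) = 1 := by linarith
    obtain ⟨m, hm⟩ := (Real.cos_eq_one_iff _).mp h1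
    refine ⟨m, ?_⟩
    have := Real.pi_pos
    have h2 : (m : ℝ) * (2 * Real.pi) = t * (2 * Real.pi) := by linarith
    exact (mul_right_cancel₀ (by positivity) h2).symm
  · rintro ⟨m, rfl⟩
    rw [show 2 * Real.pi * (m : ℝ) = m * (2 * Real.pi) by ring, Real.cos_int_mul_two_pi]
    norm_num

lemma aa_eq_zero_iff (t : ℝ) : aa t = 0 ↔ ∃ m : ℤ, t = 1 / 2 + m := by
  unfold aa
  constructor
  · intro h
    have h1 : Real.cos (2 * Real.pi * t - Real.pi) = 1 := by
      rw [Real.cos_sub_pi]; linarith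
    obtain ⟨m, hm⟩ := (Real.cos_eq_one_iff _).mp h1
    refine ⟨m, ?_⟩
    have := Real.pi_pos
    have h2 : (1 / 2 + m : ℝ) * (2 * Real.pi) = t * (2 * Real.pi) := by linarith
    exact (mul_right_cancel₀ (by positivity) h2).symm
  · rintro ⟨m, rfl⟩
    rw [show 2 * Real.pi * (1 / 2 + (m : ℝ)) = Real.pi + m * (2 * Real.pi) by ring,
      Real.cos_add_int_mul_two_pi, Real.cos_pi]
    norm_num

/-! ### The drift function -/

/-- An embedding of the two-torus in `ℂ²`. -/
noncomputable def em (p : ℝ × ℝ) : ℂ × ℂ :=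
  (Complex.exp (2 * Real.pi * Complex.I * p.1), Complex.exp (2 * Real.pi * Complex.I * p.2))

lemma contDiff_em : ContDiff ℝ ∞ em := by
  have h1 : ContDiff ℝ ∞ (fun x : ℝ => (x : ℂ)) := Complex.ofRealCLM.contDiff
  have h2 : ContDiff ℝ ∞ (fun x : ℝ => Complex.exp (2 * Real.pi * Complex.I * x)) :=
    (Complex.contDiff_exp (𝕜 := ℝ)).comp (contDiff_const.mul h1)
  exact (h2.comp contDiff_fst).prodMk (h2.comp contDiff_snd)

lemma exp_eq_iff {x y : ℝ} : Complex.exp (2 * Real.pi * Complex.I * x)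
    = Complex.exp (2 * Real.pi * Complex.I * y) ↔ ∃ m : ℤ, x = y + m := by
  rw [Complex.exp_eq_exp_iff_exists_int]
  have hpi : (2 * Real.pi * Complex.I : ℂ) ≠ 0 := by
    simp [Real.pi_ne_zero]
  constructor
  · rintro ⟨m, hm⟩
    refine ⟨m, ?_⟩
    have h2 : (2 * Real.pi * Complex.I : ℂ) * x = (2 * Real.pi * Complex.I : ℂ) * (y + m) := by
      rw [hm]; ring
    have h3 := mul_left_cancel₀ hpi h2
    exact_mod_cast h3
  · rintro ⟨m, rfl⟩
    exact ⟨m, by push_cast; ring⟩

lemma em_eq_iff {p q : ℝ × ℝ} : em p = em q ↔ ∃ m m' : ℤ, p = (q.1 + m, q.2 + m') := by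
  unfold em
  rw [Prod.mk.injEq, exp_eq_iff, exp_eq_iff]
  constructor
  · rintro ⟨⟨m, hm⟩, ⟨m', hm'⟩⟩
    exact ⟨m, m', Prod.ext hm hm'⟩
  · rintro ⟨m, m', rfl⟩
    exact ⟨⟨m, rfl⟩, ⟨m', rfl⟩⟩

lemma exists_rho : ∃ f : ℂ × ℂ → ℝ, Function.support f = (em '' (pl '' Y))ᶜ ∧ ContDiff ℝ ∞ f ∧
    Set.range f ⊆ Set.Icc 0 1 := by
  have h : IsCompact (em '' (pl '' Y)) := (isCompact_Y.image continuous_pl).image
    contDiff_em.continuous
  exact h.isClosed.isOpen_compl.exists_contDiff_support_eq (n := ⊤)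

/-- The drift function: nonnegative, periodic, smooth, and zero exactly over the subshift. -/
noncomputable def rho (p : ℝ × ℝ) : ℝ := exists_rho.choose (em p)

lemma contDiff_rho : ContDiff ℝ ∞ rho := exists_rho.choose_spec.2.1.comp contDiff_em

lemma rho_nonneg (p : ℝ × ℝ) : 0 ≤ rho p := (exists_rho.choose_spec.2.2 ⟨em p, rfl⟩).1
lemma rho_le_one (p : ℝ × ℝ) : rho p ≤ 1 := (exists_rho.choose_spec.2.2 ⟨em p, rfl⟩).2

lemma rho_add_int (x y : ℝ) (m m' : ℤ) : rho (x + m, y + m') = rho (x, y) := by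
  unfold rho
  rw [(em_eq_iff (p := (x + m, y + m')) (q := (x, y))).mpr ⟨m, m', rfl⟩]

lemma rho_eq_zero_iff (p : ℝ × ℝ) :
    rho p = 0 ↔ ∃ w ∈ Y, ∃ m m' : ℤ, p = ((pl w).1 + m, (pl w).2 + m') := by
  have h := exists_rho.choose_spec.1
  have h1 : rho p = 0 ↔ em p ∈ em '' (pl '' Y) := by
    rw [← not_iff_not, ← mem_compl_iff, ← h, Function.mem_support]
    rfl
  rw [h1]
  constructor
  · rintro ⟨_, ⟨w, hw, rfl⟩, he⟩
    exact ⟨w, hw, em_eq_iff.mp he.symm⟩
  · rintro ⟨w, hw, h2⟩
    exact ⟨pl w, ⟨w, hw, rfl⟩, (em_eq_iff.mpr h2).symm⟩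

/-- The vertical displacement. -/
noncomputable def del (v : V) : ℝ := 1 / 20 * aa v.2.2 * (1 - aa v.2.2 + rho (v.1, v.2.1))

lemma contDiff_del : ContDiff ℝ ∞ del := by
  unfold del
  have h1 : ContDiff ℝ ∞ (fun v : V => aa v.2.2) :=
    contDiff_aa.comp (contDiff_snd.comp contDiff_snd)
  have h2 : ContDiff ℝ ∞ (fun v : V => rho (v.1, v.2.1)) :=
    contDiff_rho.comp (contDiff_fst.prodMk (contDiff_fst.comp contDiff_snd))
  exact (contDiff_const.mul h1).mul ((contDiff_const.sub h1).add h2)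

lemma del_nonneg (v : V) : 0 ≤ del v := by
  unfold del
  have h1 := aa_nonneg v.2.2
  have h2 := aa_le_one v.2.2
  have h3 := rho_nonneg (v.1, v.2.1)
  have : 0 ≤ 1 - aa v.2.2 + rho (v.1, v.2.1) := by linarith
  positivity

lemma del_add_latt (v : V) (m : ℤ × ℤ × ℤ) : del (v + latt m) = del v := by
  unfold del
  simp only [latt, Prod.fst_add, Prod.snd_add, aa_add_int, rho_add_int]

lemma del_eq_zero_iff (v : V) : del v = 0 ↔ aa v.2.2 = 0 ∨ (aa v.2.2 = 1 ∧ rho (v.1, v.2.1) = 0) := by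
  unfold del
  have h1 := aa_nonneg v.2.2
  have h2 := aa_le_one v.2.2
  have h3 := rho_nonneg (v.1, v.2.1)
  constructor
  · intro h
    rcases mul_eq_zero.mp h with h4 | h4
    · left; linarith
    · right; constructor <;> linarith
  · rintro (h | ⟨h, h'⟩)
    · rw [h]; ring
    · rw [h, h']; ring

/-- The vertical displacement varies slowly with the vertical coordinate. -/
lemma hasDerivAt_aa (t : ℝ) : HasDerivAt aa (-Real.pi * Real.sin (2 * Real.pi * t)) t := by
  unfold aa
  have h1 : HasDerivAt (fun t : ℝ => 2 * Real.pi * t) (2 * Real.pi) t := by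
    simpa using (hasDerivAt_id t).const_mul (2 * Real.pi)
  have h2 := ((h1.cos).const_add 1).div_const 2
  exact h2.congr_deriv (by ring)

lemma hasDerivAt_del (x y t : ℝ) : ∃ d : ℝ, |d| ≤ 1 / 3 ∧
    HasDerivAt (fun s => del (x, y, s)) d t := by
  have h1 := hasDerivAt_aa t
  have h2 := (h1.const_mul (1 / 20)).mul ((h1.const_sub 1).add_const (rho (x, y)))
  refine ⟨_, ?_, h2⟩
  have e1 := aa_nonneg t
  have e2 := aa_le_one t
  have e3 := rho_nonneg (x, y)
  have e4 := rho_le_one (x, y)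
  have e5 : |Real.sin (2 * Real.pi * t)| ≤ 1 := Real.abs_sin_le_one _
  have e6 := Real.pi_pos
  have e7 := Real.pi_lt_d2
  have e8 : 1 / 20 * (-Real.pi * Real.sin (2 * Real.pi * t)) * (1 - aa t + rho (x, y)) +
      1 / 20 * aa t * -(-Real.pi * Real.sin (2 * Real.pi * t))
      = (1 / 20 * Real.pi) * (-Real.sin (2 * Real.pi * t) * (1 - 2 * aa t + rho (x, y))) := by ring
  rw [e8, abs_mul, abs_of_pos (by positivity), abs_mul, abs_neg]
  have e9 : |1 - 2 * aa t + rho (x, y)| ≤ 2 := by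
    rw [abs_le]; constructor <;> linarith
  have e10 : |Real.sin (2 * Real.pi * t)| * |1 - 2 * aa t + rho (x, y)| ≤ 1 * 2 :=
    mul_le_mul e5 e9 (abs_nonneg _) zero_le_one
  nlinarith

end Pool.Agent.H49.Katok
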