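import Pool.Agent.H49.Katok.Dyn

/-!
# Invariant measures of the diffeomorphism
-/

open Set Filter Topology MeasureTheory
open scoped ContDiff

namespace Pool.Agent.H49.Katok

/-! ### The vertical coordinate is nondecreasing -/

/-- The vertical coordinate, with values in `[-1/2, 1/2)`. -/
noncomputable def tau (z : T3) : ℝ := (AddCircle.measurableEquivIco (1 : ℝ) (-1 / 2) z.2.2 : ℝ)

lemma measurable_tau : Measurable tau :=
  measurable_subtype_coe.comp ((AddCircle.measurableEquivIco (1 : ℝ) (-1 / 2)).measurable.comp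
    (measurable_snd.comp measurable_snd))

lemma tau_mem (z : T3) : tau z ∈ Ico (-1 / 2 : ℝ) (-1 / 2 + 1) :=
  (AddCircle.measurableEquivIco (1 : ℝ) (-1 / 2) z.2.2).2

lemma coe_tau (z : T3) : ((tau z : ℝ) : UnitAddCircle) = z.2.2 := AddCircle.coe_equivIco

lemma tau_piT {v : V} (h : v.2.2 ∈ Ico (-1 / 2 : ℝ) (-1 / 2 + 1)) : tau (piT v) = v.2.2 :=
  AddCircle.equivIco_coe_of_mem h

/-- A good representative of a point of the torus. -/
lemma exists_rep (z : T3) : ∃ v : V, piT v = z ∧ v.2.2 = tau z := by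
  obtain ⟨u, rfl⟩ := surjective_piT z
  refine ⟨(u.1, u.2.1, tau (piT u)), ?_, rfl⟩
  rw [piT_apply, coe_tau]
  rfl

lemma tau_F {v : V} (h : v.2.2 ∈ Ico (-1 / 2 : ℝ) (-1 / 2 + 1)) :
    tau (F (piT v)) = v.2.2 + del v := by
  rw [F_piT, lF_apply]
  apply tau_piT
  have h1 : del (v.1, v.2.1, (1 / 2 : ℝ)) = 0 := by
    rw [del_eq_zero_iff]
    left
    rw [aa_eq_zero_iff]
    exact ⟨0, by simp⟩
  have h2 := (strictMono_c v.1 v.2.1) (show v.2.2 < 1 / 2 by linarith [h.2])
  simp only [h1] at h2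
  have h3 := del_nonneg v
  refine ⟨?_, ?_⟩
  · change -1 / 2 ≤ v.2.2 + del v
    linarith [h.1]
  · change v.2.2 + del v < -1 / 2 + 1
    linarith

/-- The barrier. -/
def Z1 : Set T3 := {z | z.2.2 = ((1 / 2 : ℝ) : UnitAddCircle)}

/-- The subshift in the torus. -/
def Z2 : Set T3 := code '' Y

lemma F_of_mem_Z1 {z : T3} (hz : z ∈ Z1) : F z = z := by
  obtain ⟨v, rfl⟩ := surjective_piT z
  have h1 : ((v.2.2 : ℝ) : UnitAddCircle) = ((1 / 2 : ℝ) : UnitAddCircle) := hz
  rw [eq_comm, coe_eq_coe_iff] at h1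
  have h2 : aa v.2.2 = 0 := (aa_eq_zero_iff _).mpr h1
  have h3 : del v = 0 := (del_eq_zero_iff v).mpr (Or.inl h2)
  rw [F_piT, lF_apply, h3, add_zero, h2]
  simp

lemma tau_le (z : T3) : tau z ≤ tau (F z) := by
  obtain ⟨v, rfl, hv⟩ := exists_rep z
  have h1 : v.2.2 ∈ Ico (-1 / 2 : ℝ) (-1 / 2 + 1) := hv ▸ tau_mem _
  rw [tau_F h1, ← hv]
  linarith [del_nonneg v]

lemma mem_of_tau_eq {z : T3} (h : tau (F z) = tau z) : z ∈ Z1 ∪ Z2 := by
  obtain ⟨v, rfl, hv⟩ := exists_rep z
  have h1 : v.2.2 ∈ Ico (-1 / 2 : ℝ) (-1 / 2 + 1) := hv ▸ tau_mem _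
  rw [tau_F h1, ← hv] at h
  have h2 : del v = 0 := by linarith
  rcases (del_eq_zero_iff v).mp h2 with h3 | ⟨h3, h4⟩
  · left
    change ((v.2.2 : ℝ) : UnitAddCircle) = ((1 / 2 : ℝ) : UnitAddCircle)
    rw [eq_comm, coe_eq_coe_iff]
    exact (aa_eq_zero_iff _).mp h3
  · right
    obtain ⟨n, hn⟩ := (aa_eq_one_iff _).mp h3
    obtain ⟨w, hw, m, m', hm⟩ := (rho_eq_zero_iff _).mp h4
    refine ⟨w, hw, ?_⟩
    unfold code
    rw [piT_eq_iff]
    refine ⟨(m, m', n), ?_⟩
    have e1 : v.1 = (pl w).1 + m := congrArg Prod.fst hm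
    have e2 : v.2.1 = (pl w).2 + m' := congrArg Prod.snd hm
    refine Prod.ext e1 (Prod.ext e2 ?_)
    simp [latt, hn]

/-- Invariant probability measures live on `Z1 ∪ Z2`. -/
lemma ae_mem_union {m : Measure T3} [IsProbabilityMeasure m] (hm : MeasurePreserving F m m) :
    ∀ᵐ z ∂m, z ∈ Z1 ∪ Z2 := by
  have hi : Integrable tau m := by
    refine Integrable.of_bound (C := 1) measurable_tau.aestronglyMeasurable ?_
    refine Eventually.of_forall fun z => ?_
    have := tau_mem z
    rw [Real.norm_eq_abs, abs_le]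
    constructor <;> linarith [this.1, this.2]
  have hi2 : Integrable (fun z => tau (F z)) m := hm.integrable_comp_of_integrable hi
  have h1 : ∫ z, tau (F z) ∂m = ∫ z, tau z ∂m := by
    conv_rhs => rw [← hm.map_eq]
    rw [integral_map hm.measurable.aemeasurable measurable_tau.aestronglyMeasurable]
  have h2 : ∫ z, (tau (F z) - tau z) ∂m = 0 := by
    rw [integral_sub hi2 hi, h1, sub_self]
  have h3 : (fun z => tau (F z) - tau z) =ᵐ[m] 0 := by
    rwa [integral_eq_zero_iff_of_nonneg (fun z => sub_nonneg.mpr (tau_le z)) (hi2.sub hi)] at h2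
  filter_upwards [h3] with z hz
  exact mem_of_tau_eq (sub_eq_zero.mp hz)

/-! ### Measures on the barrier -/

lemma partEntropy_eq_zero {α : Type} [Fintype α] {m : Measure T3}
    [IsProbabilityMeasure m] (h : ∀ A : Set T3, MeasurableSet A → m.real A = 0 ∨ m.real A = 1)
    (ξ : T3 → α) (hξ : ∀ a, MeasurableSet (ξ ⁻¹' {a})) : partEntropy m ξ = 0 := by
  unfold partEntropy
  refine Finset.sum_eq_zero fun a _ => ?_
  rcases h _ (hξ a) with h1 | h1 <;> rw [h1] <;> simp [Real.negMulLog]

lemma ksEntropy_le_zero {m : Measure T3} [IsProbabilityMeasure m] (hF : Measurable F)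
    (h : ∀ A : Set T3, MeasurableSet A → m.real A = 0 ∨ m.real A = 1) : ksEntropy F m ≤ 0 := by
  unfold ksEntropy
  refine iSup_le fun k => iSup_le fun ξ => iSup_le fun hξ => ?_
  have h1 : ∀ n, partEntropy m (itin F ξ n) = 0 := by
    intro n
    apply partEntropy_eq_zero h
    intro a
    have h2 : Measurable (itin F ξ n) := by
      unfold itin
      exact measurable_pi_iff.mpr fun i => hξ.comp (hF.iterate _)
    exact h2 (measurableSet_singleton a)
  simp [h1]

lemma ksEntropy_of_barrier {m : Measure T3} [IsProbabilityMeasure m] (hm : Ergodic F m)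
    (h : ∀ᵐ z ∂m, z ∈ Z1) : ksEntropy F m ≤ 0 := by
  apply ksEntropy_le_zero continuous_F.measurable
  intro A hA
  have h1 : F ⁻¹' A =ᵐ[m] A := by
    filter_upwards [h] with z hz
    have : F z = z := F_of_mem_Z1 hz
    change (F z ∈ A) = (z ∈ A)
    rw [this]
  rcases hm.quasiErgodic.ae_empty_or_univ₀ hA.nullMeasurableSet h1 with h2 | h2
  · left
    rw [measureReal_congr h2]
    simp
  · right
    rw [measureReal_congr h2]
    simp

/-! ### Measures on the subshift -/

lemma measurableEmbedding_code : MeasurableEmbedding code :=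
  (continuous_code.isClosedEmbedding code_injective).measurableEmbedding

/-- An invariant measure on `Z2` comes from an invariant measure of the shift on `Y`. -/
lemma exists_comap {m : Measure T3} [IsProbabilityMeasure m] (hm : MeasurePreserving F m m)
    (h : ∀ᵐ z ∂m, z ∈ Z2) : ∃ μ : Measure Om, IsProbabilityMeasure μ ∧
      MeasurePreserving shift μ μ ∧ (∀ᵐ w ∂μ, w ∈ Y) ∧ μ.map code = m := by
  have hc := measurableEmbedding_code
  have hmap : (m.comap code).map code = m := by
    rw [hc.map_comap]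
    apply Measure.restrict_eq_self_of_ae_mem
    filter_upwards [h] with z hz
    exact image_subset_range _ _ hz
  have happ : ∀ A, m.comap code A = m (code '' A) := fun A => hc.comap_apply m A
  refine ⟨m.comap code, ⟨?_⟩, ⟨measurable_shift, ?_⟩, ?_, hmap⟩
  · rw [← preimage_univ (f := code), ← hc.map_apply, hmap]
    exact measure_univ
  · ext A hA
    rw [Measure.map_apply measurable_shift hA, happ, happ]
    have h1 : MeasurableSet (code '' A) := hc.measurableSet_image.mpr hA
    rw [← hm.measure_preimage h1.nullMeasurableSet]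
    apply measure_congr
    filter_upwards [h] with z hz
    obtain ⟨w, hw, rfl⟩ := hz
    change (code w ∈ code '' (shift ⁻¹' A)) = (F (code w) ∈ code '' A)
    rw [F_code hw, code_injective.mem_set_image, code_injective.mem_set_image]
    rfl
  · rw [ae_iff, happ]
    refine measure_mono_null ?_ (ae_iff.mp h)
    rintro _ ⟨w, hw, rfl⟩ ⟨w', hw', he⟩
    exact hw (code_injective he ▸ hw')

/-- Uniqueness of the invariant measure on `Z2`. -/
lemma unique_on_Z2 {m m' : Measure T3} [IsProbabilityMeasure m] [IsProbabilityMeasure m']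
    (hm : MeasurePreserving F m m) (hm' : MeasurePreserving F m' m')
    (h : ∀ᵐ z ∂m, z ∈ Z2) (h' : ∀ᵐ z ∂m', z ∈ Z2) : m = m' := by
  obtain ⟨μ, i1, h1, h2, h3⟩ := exists_comap hm h
  obtain ⟨μ', i1', h1', h2', h3'⟩ := exists_comap hm' h'
  rw [← h3, ← h3', unique_measure h1 h1' h2 h2']

/-- Dichotomy for ergodic measures. -/
lemma ergodic_dichotomy {m : Measure T3} [IsProbabilityMeasure m] (hm : Ergodic F m) :
    (∀ᵐ z ∂m, z ∈ Z1) ∨ (∀ᵐ z ∂m, z ∈ Z2) := by
  have hZ1 : MeasurableSet Z1 := by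
    have : IsClosed Z1 := isClosed_eq (continuous_snd.comp continuous_snd) continuous_const
    exact this.measurableSet
  have hun := ae_mem_union hm.toMeasurePreserving
  have h1 : F ⁻¹' Z1 =ᵐ[m] Z1 := by
    filter_upwards [hun] with z hz
    change (F z ∈ Z1) = (z ∈ Z1)
    rw [eq_iff_iff]
    constructor
    · intro h
      rcases hz with hz | ⟨w, hw, rfl⟩
      · exact hz
      · exfalso
        rw [F_code hw] at h
        have h2 : ((0 : ℝ) : UnitAddCircle) = ((1 / 2 : ℝ) : UnitAddCircle) := h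
        obtain ⟨n, hn⟩ := coe_eq_coe_iff.mp h2
        rw [zero_add] at hn
        have h3 : (2 * n : ℤ) = 1 := by
          have : (2 * n : ℝ) = 1 := by linarith
          exact_mod_cast this
        omega
    · intro h
      rw [F_of_mem_Z1 h]
      exact h
  rcases hm.quasiErgodic.ae_empty_or_univ₀ hZ1.nullMeasurableSet h1 with h2 | h2
  · right
    filter_upwards [h2, hun] with z hz hz'
    rcases hz' with h3 | h3
    · have : z ∈ (∅ : Set T3) := hz.mp h3
      exact absurd this (notMem_empty z)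
    · exact h3
  · left
    filter_upwards [h2] with z hz
    exact hz.mpr (mem_univ z)

end Pool.Agent.H49.Katok
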