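import Mathlib

/-!
# A one-sided family of block sequences with uniform frequencies and positive entropy
-/

open Set Filter

namespace Pool.Agent.H49.Katok

/-- Number of words of level `k`. -/
def N : ℕ → ℕ
  | 0 => 8
  | k + 1 => (N k).factorial

/-- Length of the words of level `k`. -/
def len : ℕ → ℕ
  | 0 => 3
  | k + 1 => N k * len k

lemma N_succ (k : ℕ) : N (k + 1) = (N k).factorial := rfl
lemma len_succ (k : ℕ) : len (k + 1) = N k * len k := rfl

lemma N_ge (k : ℕ) : 8 ≤ N k := by
  induction k with
  | zero => simp [N]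
  | succ k ih => exact ih.trans (Nat.self_le_factorial _)

lemma N_pos (k : ℕ) : 0 < N k := by have := N_ge k; omega

lemma len_ge (k : ℕ) : 3 * 8 ^ k ≤ len k := by
  induction k with
  | zero => simp [len]
  | succ k ih =>
    rw [len_succ, pow_succ]
    calc 3 * (8 ^ k * 8) = 8 * (3 * 8 ^ k) := by ring
      _ ≤ N k * len k := Nat.mul_le_mul (N_ge k) ih

lemma len_pos (k : ℕ) : 0 < len k := by
  have := len_ge k
  have := Nat.one_le_pow k 8 (by norm_num)
  omega

lemma lt_len (k : ℕ) : k < len k := by
  have := len_ge k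
  have : k < 8 ^ k := Nat.lt_pow_self (by norm_num)
  omega

lemma len_lt (k : ℕ) : len k < len (k + 1) := by
  have := N_ge k
  have := len_pos k
  rw [len_succ]
  nlinarith

lemma len_mono {j k : ℕ} (h : j ≤ k) : len j ≤ len k :=
  (strictMono_nat_of_lt_succ len_lt).monotone h

/-- Enumeration of the permutations of the words of level `k`. -/
noncomputable def perm (k : ℕ) : Fin (N (k + 1)) ≃ Equiv.Perm (Fin (N k)) :=
  (Fintype.equivFinOfCardEq (by rw [Fintype.card_perm, Fintype.card_fin, N_succ])).symm

/-- The words. Only the values at `i < len k` matter. -/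
noncomputable def wd : (k : ℕ) → Fin (N k) → ℕ → Bool
  | 0, a, i => Nat.testBit a i
  | k + 1, b, i => if h : i / len k < N k then wd k (perm k b ⟨i / len k, h⟩) (i % len k) else false

lemma wd_succ (k : ℕ) (b : Fin (N (k + 1))) (q : Fin (N k)) {i : ℕ} (hi : i < len k) :
    wd (k + 1) b (q * len k + i) = wd k (perm k b q) i := by
  have h1 : (q * len k + i) / len k = q := by
    rw [mul_comm, Nat.mul_add_div (len_pos k), Nat.div_eq_of_lt hi, add_zero]
  have h2 : (q * len k + i) % len k = i := by
    rw [mul_comm, Nat.mul_add_mod, Nat.mod_eq_of_lt hi]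
  rw [wd]
  simp only [h1, h2, q.isLt, dite_true, Fin.eta]

lemma pos_lt {k : ℕ} {q i : ℕ} (hq : q < N k) (hi : i < len k) : q * len k + i < len (k + 1) := by
  rw [len_succ]
  calc q * len k + i < q * len k + len k := by omega
    _ = (q + 1) * len k := by ring
    _ ≤ N k * len k := Nat.mul_le_mul_right _ hq

lemma wd_injective (k : ℕ) (a a' : Fin (N k)) (h : ∀ i < len k, wd k a i = wd k a' i) :
    a = a' := by
  induction k with
  | zero =>
    have h0 := h 0 (by simp [len])
    have h1 := h 1 (by simp [len])
    have h2 := h 2 (by simp [len])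
    simp only [wd] at h0 h1 h2
    have ha : (a : ℕ) < 8 := a.isLt
    have ha' : (a' : ℕ) < 8 := a'.isLt
    apply Fin.ext
    generalize (a : ℕ) = x at *
    generalize (a' : ℕ) = y at *
    interval_cases x <;> interval_cases y <;> revert h0 h1 h2 <;> decide
  | succ k ih =>
    apply (perm k).injective
    ext q : 1
    apply ih
    intro i hi
    rw [← wd_succ k a q hi, ← wd_succ k a' q hi]
    exact h _ (pos_lt q.isLt hi)

/-- Every word is a concatenation of words of any lower level. -/
lemma wd_decomp {j J : ℕ} (hj : j ≤ J) (b : Fin (N J)) (m : ℕ) (hm : (m + 1) * len j ≤ len J) :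
    ∃ a : Fin (N j), ∀ i < len j, wd J b (m * len j + i) = wd j a i := by
  induction J, hj using Nat.le_induction generalizing m with
  | base =>
    have : m = 0 := by
      have := len_pos j
      by_contra h
      have : 2 ≤ m + 1 := by omega
      nlinarith
    subst this
    exact ⟨b, fun i _ => by simp⟩
  | succ J hJ ih =>
    have hdvd : len j ∣ len J := by
      clear ih hm b
      induction J, hJ using Nat.le_induction with
      | base => exact dvd_rfl
      | succ J _ ih => exact (ih.trans (Dvd.intro_left _ rfl))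
    obtain ⟨r, hr⟩ := hdvd
    have hlj := len_pos j
    have hr0 : 0 < r := by
      rcases Nat.eq_zero_or_pos r with h | h
      · have := len_pos J
        rw [hr, h] at this
        simp at this
      · exact h
    -- `m = q * r + m'`
    obtain ⟨q, m', hm', rfl⟩ : ∃ q m', m' < r ∧ m = q * r + m' :=
      ⟨m / r, m % r, Nat.mod_lt _ hr0, by rw [Nat.div_add_mod']⟩
    have hq : q < N J := by
      by_contra h
      push Not at h
      have h1 : N J * r ≤ q * r := Nat.mul_le_mul_right _ h
      have h2 : (N J * r + 1) * len j ≤ len (J + 1) :=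
        (Nat.mul_le_mul_right _ (by omega)).trans hm
      rw [len_succ, hr] at h2
      have h3 : (N J * r + 1) * len j = N J * (len j * r) + len j := by ring
      omega
    have hle : (m' + 1) * len j ≤ len J := by
      rw [hr, mul_comm (len j)]
      exact Nat.mul_le_mul_right _ hm'
    obtain ⟨a, ha⟩ := ih (perm J b ⟨q, hq⟩) m' hle
    refine ⟨a, fun i hi => ?_⟩
    rw [← ha i hi]
    have h1 : m' * len j + i < len J := by
      have : (m' + 1) * len j = m' * len j + len j := by ring
      omega
    rw [← wd_succ J b ⟨q, hq⟩ h1]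
    congr 1
    simp only [hr]
    ring

/-- The successive words in the construction of a point. -/
noncomputable def chain (k : ℕ) (a : Fin (N k)) : (K : ℕ) → Fin (N (k + K))
  | 0 => a
  | K + 1 => (perm (k + K)).symm (Equiv.swap ⟨0, N_pos _⟩ (chain k a K))

lemma chain_succ (k : ℕ) (a : Fin (N k)) (K : ℕ) {i : ℕ} (hi : i < len (k + K)) :
    wd (k + (K + 1)) (chain k a (K + 1)) i = wd (k + K) (chain k a K) i := by
  have h := wd_succ (k + K) (chain k a (K + 1)) ⟨0, N_pos _⟩ hi
  simp only [zero_mul, zero_add] at h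
  refine h.trans ?_
  rw [chain]
  congr 1
  simp

lemma chain_mono (k : ℕ) (a : Fin (N k)) {K K' : ℕ} (hK : K ≤ K') {i : ℕ} (hi : i < len (k + K)) :
    wd (k + K') (chain k a K') i = wd (k + K) (chain k a K) i := by
  induction K', hK using Nat.le_induction with
  | base => rfl
  | succ K' hK' ih =>
    rw [chain_succ k a K' (hi.trans_le (len_mono (by omega))), ih]

/-- A point whose first block of level `k` is the word `a`. -/
noncomputable def pt (k : ℕ) (a : Fin (N k)) (i : ℕ) : Bool := wd (k + i) (chain k a i) i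

lemma pt_eq (k : ℕ) (a : Fin (N k)) (K : ℕ) {i : ℕ} (hi : i < len (k + K)) :
    pt k a i = wd (k + K) (chain k a K) i := by
  have hi' : i < len (k + i) := (lt_len i).trans_le (len_mono (by omega))
  unfold pt
  rcases le_total K i with h | h
  · exact chain_mono k a h hi
  · exact (chain_mono k a h hi').symm

lemma pt_head (k : ℕ) (a : Fin (N k)) {i : ℕ} (hi : i < len k) : pt k a i = wd k a i :=
  pt_eq k a 0 hi

/-- `z` is, from position `s` on, a concatenation of words of level `k`. -/
def Conc (k s : ℕ) (z : ℕ → Bool) : Prop :=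
  ∀ j : ℕ, ∃ a : Fin (N k), ∀ i < len k, z (s + j * len k + i) = wd k a i

lemma conc_pt (k : ℕ) (a : Fin (N k)) (j : ℕ) : Conc j 0 (pt k a) := by
  intro m
  have h1 : (m + 1) * len j ≤ len (k + ((m + 1) * len j + j)) :=
    ((Nat.le_add_right _ _).trans (lt_len _).le).trans (len_mono (Nat.le_add_left _ _))
  obtain ⟨b, hb⟩ := wd_decomp (j := j) (J := k + ((m + 1) * len j + j)) (by omega)
    (chain k a ((m + 1) * len j + j)) m h1
  refine ⟨b, fun i hi => ?_⟩
  rw [← hb i hi, zero_add]
  apply pt_eq
  have : (m + 1) * len j = m * len j + len j := by ring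
  omega

/-- The two-sided sequences. -/
abbrev Om : Type := ℤ → Bool

/-- The shift. -/
def shift (w : Om) : Om := fun n => w (n + 1)

lemma shift_iterate (i : ℕ) (w : Om) (n : ℤ) : shift^[i] w n = w (n + i) := by
  induction i generalizing w with
  | zero => simp
  | succ i ih =>
    rw [Function.iterate_succ_apply, ih]
    simp only [shift]
    congr 1
    push_cast
    ring

lemma continuous_shift : Continuous shift :=
  continuous_pi fun n => continuous_apply (n + 1)

/-- The compact set of sequences which are, in the future, concatenations of words of every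
level. -/
def Y : Set Om := {w | ∀ k, ∃ s < len k, Conc k s (fun n => w n)}

lemma isClosed_Y : IsClosed Y := by
  have : Y = ⋂ k : ℕ, ⋃ s ∈ Finset.range (len k), ⋂ j : ℕ, ⋃ a ∈ (Finset.univ : Finset (Fin (N k))),
      ⋂ i ∈ Finset.range (len k), {w : Om | w ((s + j * len k + i : ℕ) : ℤ) = wd k a i} := by
    ext w
    simp [Y, Conc]
  rw [this]
  refine isClosed_iInter fun k => ?_
  refine isClosed_biUnion_finset fun s _ => ?_
  refine isClosed_iInter fun j => ?_
  refine isClosed_biUnion_finset fun a _ => ?_
  refine isClosed_biInter fun i _ => ?_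
  exact isClosed_eq (continuous_apply _) continuous_const

lemma isCompact_Y : IsCompact Y := isClosed_Y.isCompact

lemma shift_mem_Y {w : Om} (hw : w ∈ Y) : shift w ∈ Y := by
  intro k
  obtain ⟨s, hs, h⟩ := hw k
  rcases Nat.eq_zero_or_pos s with rfl | h0
  · refine ⟨len k - 1, by have := len_pos k; omega, fun j => ?_⟩
    obtain ⟨a, ha⟩ := h (j + 1)
    refine ⟨a, fun i hi => ?_⟩
    rw [← ha i hi]
    simp only [shift]
    congr 1
    have := len_pos k
    have h2 : ((len k - 1 + j * len k + i : ℕ) : ℤ) + 1 = ((0 + (j + 1) * len k + i : ℕ) : ℤ) := by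
      push_cast [Nat.cast_sub (show 1 ≤ len k by omega)]
      ring
    exact h2
  · refine ⟨s - 1, by omega, fun j => ?_⟩
    obtain ⟨a, ha⟩ := h j
    refine ⟨a, fun i hi => ?_⟩
    rw [← ha i hi]
    simp only [shift]
    congr 1
    have h2 : ((s - 1 + j * len k + i : ℕ) : ℤ) + 1 = ((s + j * len k + i : ℕ) : ℤ) := by
      push_cast [Nat.cast_sub (show 1 ≤ s by omega)]
      ring
    exact h2

/-- The point of `Y` attached to a word. -/
noncomputable def ptY (k : ℕ) (a : Fin (N k)) : Om := fun n => pt k a n.toNat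

lemma ptY_mem (k : ℕ) (a : Fin (N k)) : ptY k a ∈ Y := fun j =>
  ⟨0, len_pos j, by simpa [ptY] using conc_pt k a j⟩

lemma ptY_apply (k : ℕ) (a : Fin (N k)) {i : ℕ} (hi : i < len k) : ptY k a i = wd k a i := by
  simp [ptY, pt_head k a hi]

/-- Growth of the number of words. -/
lemma log_N_ge (k : ℕ) : (1 / 4 : ℝ) * len k ≤ Real.log (N k) := by
  have key : ∀ k : ℕ, (1 / 4 + (8 / 21) * (1 / 8) ^ k : ℝ) * len k ≤ Real.log (N k) := by
    intro k
    induction k with
    | zero =>
      have h1 : Real.log (8 : ℝ) = 3 * Real.log 2 := by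
        rw [show (8 : ℝ) = 2 ^ 3 by norm_num, Real.log_pow]
        norm_num
      have h2 := Real.log_two_gt_d9
      simp only [len, N, pow_zero]
      norm_num
      rw [h1]
      linarith
    | succ k ih =>
      have hN : (0 : ℝ) < N k := by exact_mod_cast N_pos k
      have hL : (0 : ℝ) < len k := by exact_mod_cast len_pos k
      have h1 : (N k : ℝ) * Real.log (N k) - N k ≤ Real.log (N (k + 1)) := by
        have h2 := Real.pow_div_factorial_le_exp (N k : ℝ) hN.le (N k)
        have h3 : (0 : ℝ) < (N (k + 1)) := by exact_mod_cast N_pos (k + 1)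
        have h4 : (N k : ℝ) ^ (N k) / (N (k + 1)) ≤ Real.exp (N k) := by
          rw [N_succ]; exact h2
        have h40 : (0 : ℝ) < (N k : ℝ) ^ (N k) / (N (k + 1)) := div_pos (pow_pos hN _) h3
        have h5 := Real.log_le_log h40 h4
        rw [Real.log_exp, Real.log_div (pow_pos hN _).ne' h3.ne', Real.log_pow] at h5
        linarith
      have h6 : (3 : ℝ) * 8 ^ k ≤ len k := by exact_mod_cast len_ge k
      have h7 : (1 : ℝ) ≤ (1 / 3) * (1 / 8) ^ k * len k := by
        have : (1 / 3 : ℝ) * (1 / 8) ^ k * (3 * 8 ^ k) = 1 := by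
          rw [show (1 / 3 : ℝ) * (1 / 8) ^ k * (3 * 8 ^ k) = ((1 / 8) * 8) ^ k by
            rw [mul_pow]; ring]
          norm_num
        calc (1 : ℝ) = (1 / 3 : ℝ) * (1 / 8) ^ k * (3 * 8 ^ k) := this.symm
          _ ≤ (1 / 3) * (1 / 8) ^ k * len k := mul_le_mul_of_nonneg_left h6 (by positivity)
      rw [len_succ]
      push_cast
      have h8 : (N k : ℝ) * ((1 / 4 + (8 / 21) * (1 / 8) ^ k : ℝ) * len k) - N k
          ≤ Real.log (N (k + 1)) := by
        nlinarith
      have h9 : (1 / 4 + 8 / 21 * (1 / 8) ^ (k + 1) : ℝ) * (N k * len k)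
          = N k * ((1 / 4 + (8 / 21) * (1 / 8) ^ k : ℝ) * len k)
            - N k * ((1 / 3) * (1 / 8) ^ k * len k) := by
        rw [pow_succ]; ring
      rw [h9]
      nlinarith
  have h := key k
  have hL : (0 : ℝ) < len k := by exact_mod_cast len_pos k
  have h2 : (0 : ℝ) ≤ (8 / 21) * (1 / 8) ^ k * len k := by positivity
  linarith

end Pool.Agent.H49.Katok
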